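import Pool.Agent.H36.KI.Avg

set_option autoImplicit false

namespace Pool.Agent.H36.KJ

open MeasureTheory Pool.Agent.H36.KI

/-- upper bound for the trapezoid error of an approximately convex function, `κ` explicit -/
theorem avg2 (C2 C3 C6 : ℝ) (hC2 : 0 ≤ C2) (hC3 : 0 ≤ C3) (hC6 : 0 ≤ C6) :
    ∃ C : ℝ, 0 ≤ C ∧ ∀ κ : ℝ, 0 < κ → κ ≤ 1 →
      ∀ (S : ℝ → ℝ) (N Y : ℝ), Continuous S → 2 ≤ N → 1 ≤ Y →
      Y * Real.log N ≤ C6 * N →
      (∀ a τ : ℝ, 0 < τ → -1 ≤ a - τ → a + τ ≤ 1 →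
        -(C2 * τ * (N * τ + Y)) ≤ τ * (S (a + τ) + S (a - τ)) - ∫ t in (a - τ)..(a + τ), S t) →
      (∫ t in (-1 : ℝ)..1, |S t| ≤ C3 * N) →
      (∀ t : ℝ, -1 ≤ t → t ≤ 1 → -N ≤ S t) →
      (∀ t t' : ℝ, -1 ≤ t → t ≤ 1 → -1 ≤ t' → t' ≤ 1 → |S t - S t'| ≤ 4 * N ^ 2 * |t - t'|) →
      ∀ c τ : ℝ, |c| ≤ 1 - κ → 1 / N ≤ τ → τ ≤ κ / 4 →
        τ * (S (c + τ) + S (c - τ)) - ∫ t in (c - τ)..(c + τ), S t ≤
          C * τ * (N * τ / κ ^ 2 + Y) * Real.log N := by
  set K0 : ℝ := C3 + 2 + C2 + C2 * C6 with hK0def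
  set C4 : ℝ := 8 + 2 * C2 with hC4def
  have hK0 : 0 ≤ K0 := by positivity
  have hC4 : 0 ≤ C4 := by positivity
  refine ⟨2 * (8 * (K0 + 1) + 2 * C4) + 16 + 2 * C2, by positivity, ?_⟩
  intro κ hκ hκ1 S N Y hS hN hY hYN h1 h2 h3 h4 c τ hc hτ hτκ
  have hN0 : 0 < N := by linarith
  have hL := avg_half_log' hN
  have hτ0 : 0 < τ := lt_of_lt_of_le (by positivity) hτ
  have hYL : Y / 2 ≤ Y * Real.log N := by nlinarith
  have hW : 0 ≤ Y * Real.log N := by nlinarith
  have hinv : 1 ≤ 1 / κ := by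
    rw [le_div_iff₀ hκ]
    linarith
  set C5 : ℝ := K0 / κ with hC5def
  have hC5 : 0 ≤ C5 := by positivity
  have hM : ∀ a h : ℝ, 1 / N ≤ h → -1 ≤ a - h → a + h ≤ 1 →
      S a ≤ (S (a + h) + S (a - h)) / 2 + C4 * (N * h + Y * Real.log N) :=
    fun a h hh ha hb => avg_mid hS hC2 hN hY h1 h4 hh ha hb
  have hU : ∀ c : ℝ, |c| ≤ 1 - κ / 2 → S c ≤ C5 * N := by
    intro c hc
    obtain ⟨hc1, hc2⟩ := abs_le.mp hc
    have h5 := avg_low hS hC2 hN hY h1 h4 (a := c) (h := κ / 2) (by linarith) (by linarith) (by linarith)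
    have h6 : (∫ t in (c - κ / 2)..(c + κ / 2), S t) ≤ ∫ t in (-1 : ℝ)..1, |S t| := by
      have h7 : (∫ t in (c - κ / 2)..(c + κ / 2), S t) ≤ ∫ t in (c - κ / 2)..(c + κ / 2), |S t| := by
        apply intervalIntegral.integral_mono_on (by linarith) (hS.intervalIntegrable _ _)
          (hS.abs.intervalIntegrable _ _)
        intro t _
        exact le_abs_self _
      refine h7.trans ?_
      apply intervalIntegral.integral_mono_interval (by linarith) (by linarith) (by linarith)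
      · exact Filter.Eventually.of_forall fun t => abs_nonneg _
      · exact hS.abs.intervalIntegrable _ _
    have h8 : (∫ t in (c - κ / 2)..(c + κ / 2), S t) / (2 * (κ / 2)) ≤ C3 / κ * N := by
      have e : 2 * (κ / 2) = κ := by ring
      rw [e, div_mul_eq_mul_div]
      exact div_le_div_of_nonneg_right (h6.trans h2) hκ.le
    have h9 : C2 / 2 * (N * (κ / 2) + 2 * (Y * Real.log N)) ≤ C2 * N + C2 * C6 * N := by
      have e1 : C2 / 2 * (N * (κ / 2)) ≤ C2 * N := by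
        have : N * κ ≤ N := by nlinarith
        nlinarith
      have e2 : C2 * (Y * Real.log N) ≤ C2 * (C6 * N) := mul_le_mul_of_nonneg_left hYN hC2
      nlinarith
    have h10 : C5 * N = C3 / κ * N + (2 * N + C2 * N + C2 * C6 * N) * (1 / κ) := by
      rw [hC5def, hK0def]; ring
    have h11 : (2 * N + C2 * N + C2 * C6 * N) ≤ (2 * N + C2 * N + C2 * C6 * N) * (1 / κ) :=
      le_mul_of_one_le_right (by positivity) hinv
    rw [h10]
    linarith
  have hB1 := avg_chain hκ hκ1 hN hC4 hC5 hW hM hU h3 hc hτ hτκ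
  have hB2 : S (c - τ) - S c ≤
      τ * (4 * (C5 + 1) * N / κ) + C4 * (2 * Real.log N * N * τ + 2 * (Y * Real.log N)) := by
    have h5 := avg_chain (F := fun t => S (-t)) hκ hκ1 hN hC4 hC5 hW (fun a h hh ha hb => by
      have h6 := hM (-a) h hh (by linarith) (by linarith)
      have e1 : -a + h = -(a - h) := by ring
      have e2 : -a - h = -(a + h) := by ring
      rw [e1, e2] at h6
      show S (-a) ≤ (S (-(a + h)) + S (-(a - h))) / 2 + C4 * (N * h + Y * Real.log N)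
      linarith) (fun c hc => hU (-c) (by rwa [abs_neg])) (fun t ht1 ht2 => h3 (-t) (by linarith) (by linarith))
      (c := -c) (by rwa [abs_neg]) hτ hτκ
    have e1 : -(-c + τ) = c - τ := by ring
    have e2 : -(-c) = c := by ring
    simp only [e1, e2] at h5
    exact h5
  obtain ⟨hc1, hc2⟩ := abs_le.mp hc
  have h5 := avg_low hS hC2 hN hY h1 h4 (a := c) (h := τ) hτ (by linarith) (by linarith)
  have h6 : 2 * τ * S c ≤ (∫ t in (c - τ)..(c + τ), S t) + 2 * τ * (4 + C2 / 2 * (N * τ + 2 * (Y * Real.log N))) := by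
    have h7 := mul_le_mul_of_nonneg_left h5 (show 0 ≤ 2 * τ by positivity)
    have h8 : 2 * τ * ((∫ t in (c - τ)..(c + τ), S t) / (2 * τ)) = ∫ t in (c - τ)..(c + τ), S t := by
      field_simp
    nlinarith
  set L := Real.log N with hLdef
  set I := ∫ t in (c - τ)..(c + τ), S t with hI
  set K := K0 + 1 with hK
  have hKnn : 0 ≤ K := by positivity
  set x : ℝ := N * τ / κ ^ 2 with hxdef
  have hx0 : 0 ≤ x := by positivity
  have hinv2 : 1 ≤ (1 / κ) * (1 / κ) := by nlinarith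
  have hNx : N * τ ≤ x := by
    have e : x = N * τ * ((1 / κ) * (1 / κ)) := by
      rw [hxdef]; ring
    rw [e]
    exact le_mul_of_one_le_right (by positivity) hinv2
  have hNτ0 : 0 ≤ N * τ := by positivity
  have hxL : x ≤ 2 * (L * x) := by nlinarith
  have hNτL : N * τ ≤ 2 * (L * x) := hNx.trans hxL
  have e3 : τ * (4 * (C5 + 1) * N / κ) ≤ 4 * K * x := by
    have e4 : τ * (4 * (C5 + 1) * N / κ) = 4 * (C5 + 1) * (1 / κ) * (N * τ) := by ring
    have e5 : 4 * K * x = 4 * (K * (1 / κ)) * (1 / κ) * (N * τ) := by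
      rw [hxdef]; ring
    have e6 : C5 + 1 ≤ K * (1 / κ) := by
      rw [hK, hC5def, add_mul, one_mul]
      have : K0 / κ = K0 * (1 / κ) := by ring
      linarith
    rw [e4, e5]
    have hk0 : 0 ≤ 1 / κ := by positivity
    apply mul_le_mul_of_nonneg_right _ hNτ0
    apply mul_le_mul_of_nonneg_right _ hk0
    linarith
  have hB : τ * (4 * (C5 + 1) * N / κ) + C4 * (2 * L * N * τ + 2 * (Y * L)) ≤ (8 * K + 2 * C4) * ((x + Y) * L) := by
    have h9 : 4 * K * x ≤ 8 * (K * (L * x)) := by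
      have h9' := mul_le_mul_of_nonneg_left hxL (show 0 ≤ 4 * K by positivity)
      linarith
    have h10 : 0 ≤ K * (Y * L) := mul_nonneg hKnn hW
    have h11 : C4 * (L * (N * τ)) ≤ C4 * (L * x) := by
      apply mul_le_mul_of_nonneg_left _ hC4
      apply mul_le_mul_of_nonneg_left hNx
      linarith
    have e1 : (8 * K + 2 * C4) * ((x + Y) * L) =
        8 * (K * (L * x)) + 8 * (K * (Y * L)) + 2 * (C4 * (L * x)) + 2 * (C4 * (Y * L)) := by ring
    have e2 : C4 * (2 * L * N * τ + 2 * (Y * L)) = 2 * (C4 * (L * (N * τ))) + 2 * (C4 * (Y * L)) := by ring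
    rw [e1, e2]
    linarith
  have hR : 4 + C2 / 2 * (N * τ + 2 * (Y * L)) ≤ (8 + C2) * ((x + Y) * L) := by
    have h9 : 4 ≤ 8 * (Y * L) := by linarith
    have h10 : C2 * (N * τ) ≤ C2 * (2 * (L * x)) := mul_le_mul_of_nonneg_left hNτL hC2
    have h11 : 0 ≤ L * x := by
      apply mul_nonneg _ hx0
      linarith
    have e1 : (8 + C2) * ((x + Y) * L) = 8 * (L * x) + 8 * (Y * L) + C2 * (L * x) + C2 * (Y * L) := by ring
    have e2 : C2 / 2 * (N * τ + 2 * (Y * L)) = (C2 * (N * τ)) / 2 + C2 * (Y * L) := by ring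
    rw [e1, e2]
    linarith
  have hfin : τ * (S (c + τ) + S (c - τ)) - I ≤
      τ * (2 * ((8 * K + 2 * C4) * ((x + Y) * L))) + 2 * τ * ((8 + C2) * ((x + Y) * L)) := by
    have h12 : S (c + τ) + S (c - τ) ≤ 2 * S c + 2 * ((8 * K + 2 * C4) * ((x + Y) * L)) := by linarith
    have h13 := mul_le_mul_of_nonneg_left h12 hτ0.le
    have h14 := mul_le_mul_of_nonneg_left hR (show 0 ≤ 2 * τ by positivity)
    nlinarith
  refine hfin.trans (le_of_eq ?_)
  ring

end Pool.Agent.H36.KJ
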