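import Pool.Agent.H36.KJ.Qb2
import Pool.Agent.H36.KI.Cost

set_option autoImplicit false

/-!
# [H36 KJ Cost2] cost of one product of hats, distances to the upper faces explicit
-/

namespace Pool.Agent.H36.KJ

open Finset MeasureTheory
open Pool.Agent.H36.KI (lg YY lg_ge_one YY_nonneg stest split)
open Pool.Agent.H47.KZ (IsKritzinger Qa)
open Pool.Agent.H36.KD (psi vv dpsi en en_le test int_sq int_dpsi int_t_dpsi dpsi_meas dpsi_bd)

theorem ef_nonneg {k N : ℕ} (hN : 1 ≤ N) {δ τ : ℝ} (hτ : 0 ≤ τ) : 0 ≤ ef k N δ τ := by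
  unfold ef
  have h1 := lg_ge_one hN
  have h2 := YY_nonneg (k := k) hN
  positivity

theorem ef_double {k N : ℕ} (hN : 1 ≤ N) {δ τ : ℝ} (hτ : 0 ≤ τ) :
    ef k N δ (2 * τ) ≤ 4 * ef k N δ τ := by
  unfold ef
  have h1 := lg_ge_one hN
  have h2 := YY_nonneg (k := k) hN
  have h3 : 0 ≤ YY k N * τ * lg N := by positivity
  have e : (2 * τ / δ) ^ 2 = 4 * (τ / δ) ^ 2 := by ring
  rw [e]
  nlinarith

private theorem bdd_ii {f : ℝ → ℝ} {B : ℝ} (hf : Measurable f) (hB : ∀ t, |f t| ≤ B) (u v : ℝ) :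
    IntervalIntegrable f volume u v := by
  refine (intervalIntegrable_const (c := B)).mono_fun' hf.aestronglyMeasurable ?_
  exact Filter.Eventually.of_forall fun t => hB t

private theorem bdd_ii' {f : ℝ → ℝ} {B : ℝ} (hf : Measurable f) (hB : ∀ t, |f t| ≤ B) (u v : ℝ) :
    IntervalIntegrable (fun t => t * f t) volume u v := by
  have h1 : IntervalIntegrable (fun t : ℝ => |t| * B) volume u v :=
    (continuous_abs.mul continuous_const).intervalIntegrable _ _
  refine h1.mono_fun' (measurable_id.mul hf).aestronglyMeasurable ?_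
  refine Filter.Eventually.of_forall fun t => ?_
  show ‖t * f t‖ ≤ |t| * B
  rw [norm_mul, Real.norm_eq_abs, Real.norm_eq_abs]
  exact mul_le_mul_of_nonneg_left (hB t) (abs_nonneg _)

private theorem sqrt_sixteen (l : ℕ) {x : ℝ} (h : x ≤ 16 * 2 ^ l) :
    Real.sqrt x ≤ 4 * Real.sqrt 2 ^ l := by
  refine Real.sqrt_le_iff.mpr ⟨by positivity, h.trans (le_of_eq ?_)⟩
  rw [mul_pow, ← pow_mul, mul_comm l 2, pow_mul, Real.sq_sqrt (by norm_num)]
  norm_num

/-- cost of one product, with a coordinate `s` of our choice -/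
theorem cost2 (k m : ℕ) :
    ∃ C : ℝ, 0 ≤ C ∧ ∀ z : ℕ → Fin (k + 1) → ℝ, IsKritzinger (k + 1) m z →
    ∀ N : ℕ, m ≤ N → 2 ≤ N → ∀ a b δ : Fin (k + 1) → ℝ, (∀ r, 0 < δ r) →
    (∀ r, 0 ≤ a r ∧ a r ≤ b r ∧ b r ≤ 1 - δ r) →
    ∀ (l : Fin (k + 1) → ℕ) (s : Fin (k + 1)), (2 : ℝ) ^ l s ≤ N →
      |∑ i ∈ range N, ∏ r, psi (a r) (b r) (l r) (z i r) - N * ∏ r, vv (a r) (b r) (l r)| ≤
        C * Real.sqrt (ef k N (δ s) (1 / 2 ^ l s)) * ∏ r, Real.sqrt 2 ^ l r := by
  obtain ⟨C, hC, hb⟩ := qbound2 k m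
  refine ⟨4 ^ (k + 1) * (4 * Real.sqrt C + 8 * Real.sqrt (2 * m ^ 2 + 1)), by positivity, ?_⟩
  intro z h N hm hN a b δ hδ hab l s hls
  have hz : ∀ j r, 0 ≤ z j r ∧ z j r < 1 := fun j r => h.mem j r
  have hNR : (2 : ℝ) ≤ N := by exact_mod_cast hN
  have hN1 : 1 ≤ N := by omega
  have hb1 : ∀ r, b r ≤ 1 := fun r => (hab r).2.2.trans (by linarith [hδ r])
  obtain ⟨κ, hκe⟩ : ∃ κ : ℝ, κ = δ s := ⟨_, rfl⟩
  have hκ : 0 < κ := by rw [hκe]; exact hδ s
  have hκ1 : κ ≤ 1 := by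
    have := hab s
    rw [hκe]
    linarith
  have hbs : b s ≤ 1 - κ := by rw [hκe]; exact (hab s).2.2
  rw [← hκe]
  have hT : (0 : ℝ) < 2 ^ l s := by positivity
  obtain ⟨τ, hτ⟩ : ∃ τ : ℝ, τ = 1 / 2 ^ l s := ⟨_, rfl⟩
  have hτ0 : 0 < τ := by rw [hτ]; positivity
  have hee : 0 ≤ ef k N κ τ := ef_nonneg hN1 hτ0.le
  rw [← hτ]
  have hP : (0 : ℝ) ≤ ∏ r, Real.sqrt 2 ^ l r := prod_nonneg fun r _ => by positivity
  have hprod : ∏ r : Fin (k + 1), (4 * Real.sqrt 2 ^ l r) =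
      4 ^ (k + 1) * ∏ r, Real.sqrt 2 ^ l r := by
    rw [prod_mul_distrib, prod_const, card_univ, Fintype.card_fin]
  by_cases hcase : 2 * τ ≤ κ / 4
  · -- slab
    obtain ⟨w, c, hw, hprop⟩ := split (a s) (b s) (hab s).1 (hab s).2.1 (hb1 s) (l s)
    have hone : ∀ i : Fin 2,
        |∑ j ∈ range N, (∫ t in (z j s)..1, w i t) *
            ∏ r, (∫ t in (z j (s.succAbove r))..1,
              dpsi (a (s.succAbove r)) (b (s.succAbove r)) (l (s.succAbove r)) t) -
          N * ((∫ t in (0 : ℝ)..1, t * w i t) *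
            ∏ r, ∫ t in (0 : ℝ)..1,
              t * dpsi (a (s.succAbove r)) (b (s.succAbove r)) (l (s.succAbove r)) t)| ≤
        2 * Real.sqrt C * Real.sqrt (ef k N κ τ) * (4 ^ (k + 1) * ∏ r, Real.sqrt 2 ^ l r) := by
      intro i
      obtain ⟨hm1, hm2, hm3, hm4, hm5, hm6, hm7⟩ := hprop i
      have hc0 : 0 ≤ c i := (hab s).1.trans hm5
      have hc1 : c i ≤ 1 - κ := hm6.trans hbs
      have e2 : (2 : ℝ) / 2 ^ l s = 2 * τ := by rw [hτ]; ring
      have ht := stest (fun j => z j s) (fun j r => z j (s.succAbove r)) (fun j => hz j s)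
        (fun j r => hz j _) N (c i - 2 * τ) (c i + 2 * τ) (by linarith) (by linarith) (by linarith)
        (w i) (4 * 2 ^ l s) hm1 hm2 (by rw [e2] at hm7; exact hm7) hm3
        (fun r => dpsi (a (s.succAbove r)) (b (s.succAbove r)) (l (s.succAbove r)))
        (fun r => 4 * 2 ^ l (s.succAbove r)) (fun r => dpsi_meas _ _ _) (fun r t => dpsi_bd _ _ _ _)
      refine ht.trans ?_
      have hq := hb z h s N hm hN κ (c i) (2 * τ) hκ hκ1 (by rw [abs_of_nonneg hc0]; exact hc1)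
        (by
          have : 1 / (N : ℝ) ≤ τ := by
            rw [hτ]
            exact one_div_le_one_div_of_le hT hls
          linarith) hcase
      have hq2 : Real.sqrt (Qa (fun j => z j s) (fun j r => z j (s.succAbove r)) (c i - 2 * τ)
          (c i + 2 * τ) N) ≤ 2 * Real.sqrt C * Real.sqrt (ef k N κ τ) := by
        have h1 : Qa (fun j => z j s) (fun j r => z j (s.succAbove r)) (c i - 2 * τ)
          (c i + 2 * τ) N ≤ C * (4 * ef k N κ τ) :=
          hq.trans (mul_le_mul_of_nonneg_left (ef_double hN1 hτ0.le) hC)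
        have h2 : C * (4 * ef k N κ τ) = (2 * Real.sqrt C * Real.sqrt (ef k N κ τ)) ^ 2 := by
          rw [mul_pow, mul_pow, Real.sq_sqrt hC, Real.sq_sqrt hee]
          ring
        refine Real.sqrt_le_iff.mpr ⟨by positivity, ?_⟩
        rw [← h2]
        exact h1
      have hw2 : Real.sqrt (∫ t in (0 : ℝ)..1, w i t ^ 2) ≤ 4 * Real.sqrt 2 ^ l s :=
        sqrt_sixteen _ hm4
      have hp2 : ∏ r, Real.sqrt (∫ t in (0 : ℝ)..1,
          dpsi (a (s.succAbove r)) (b (s.succAbove r)) (l (s.succAbove r)) t ^ 2) ≤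
          ∏ r, (4 * Real.sqrt 2 ^ l (s.succAbove r)) :=
        prod_le_prod (fun r _ => Real.sqrt_nonneg _) fun r _ => sqrt_sixteen _
          (int_sq _ _ (hab _).1 (hab _).2.1 (hb1 _) _)
      have hp3 : Real.sqrt (∫ t in (0 : ℝ)..1, w i t ^ 2) * ∏ r, Real.sqrt (∫ t in (0 : ℝ)..1,
          dpsi (a (s.succAbove r)) (b (s.succAbove r)) (l (s.succAbove r)) t ^ 2) ≤
          4 ^ (k + 1) * ∏ r, Real.sqrt 2 ^ l r := by
        rw [← hprod, Fin.prod_univ_succAbove _ s]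
        exact mul_le_mul hw2 hp2 (prod_nonneg fun r _ => Real.sqrt_nonneg _) (by positivity)
      exact mul_le_mul hq2 hp3 (mul_nonneg (Real.sqrt_nonneg _)
        (prod_nonneg fun r _ => Real.sqrt_nonneg _)) (by positivity)
    have hpsi : ∀ j, ∏ r, psi (a r) (b r) (l r) (z j r) =
        (∫ t in (z j s)..1, w 0 t) * ∏ r, (∫ t in (z j (s.succAbove r))..1,
              dpsi (a (s.succAbove r)) (b (s.succAbove r)) (l (s.succAbove r)) t) +
        (∫ t in (z j s)..1, w 1 t) * ∏ r, (∫ t in (z j (s.succAbove r))..1,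
              dpsi (a (s.succAbove r)) (b (s.succAbove r)) (l (s.succAbove r)) t) := by
      intro j
      rw [Fin.prod_univ_succAbove _ s]
      have e1 : psi (a s) (b s) (l s) (z j s) = (∫ t in (z j s)..1, w 0 t) +
          ∫ t in (z j s)..1, w 1 t := by
        rw [← int_dpsi (a s) (b s) (hab s).1 (hab s).2.1 (hb1 s) (l s) (z j s) (hz j s).1
          (hz j s).2.le, ← intervalIntegral.integral_add
          (bdd_ii (hprop 0).1 (hprop 0).2.1 _ _) (bdd_ii (hprop 1).1 (hprop 1).2.1 _ _)]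
        exact intervalIntegral.integral_congr fun t _ => hw t
      have e2 : ∏ r, psi (a (s.succAbove r)) (b (s.succAbove r)) (l (s.succAbove r))
          (z j (s.succAbove r)) = ∏ r, (∫ t in (z j (s.succAbove r))..1,
              dpsi (a (s.succAbove r)) (b (s.succAbove r)) (l (s.succAbove r)) t) :=
        prod_congr rfl fun r _ => (int_dpsi _ _ (hab _).1 (hab _).2.1 (hb1 _) _ _ (hz _ _).1
          (hz _ _).2.le).symm
      rw [e1, e2]
      ring
    have hvv : ∏ r, vv (a r) (b r) (l r) =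
        (∫ t in (0 : ℝ)..1, t * w 0 t) * ∏ r, (∫ t in (0 : ℝ)..1,
              t * dpsi (a (s.succAbove r)) (b (s.succAbove r)) (l (s.succAbove r)) t) +
        (∫ t in (0 : ℝ)..1, t * w 1 t) * ∏ r, (∫ t in (0 : ℝ)..1,
              t * dpsi (a (s.succAbove r)) (b (s.succAbove r)) (l (s.succAbove r)) t) := by
      rw [Fin.prod_univ_succAbove _ s]
      have e1 : vv (a s) (b s) (l s) = (∫ t in (0 : ℝ)..1, t * w 0 t) +
          ∫ t in (0 : ℝ)..1, t * w 1 t := by
        rw [← int_t_dpsi (a s) (b s) (hab s).1 (hab s).2.1 (hb1 s) (l s),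
          ← intervalIntegral.integral_add
          (bdd_ii' (hprop 0).1 (hprop 0).2.1 _ _) (bdd_ii' (hprop 1).1 (hprop 1).2.1 _ _)]
        refine intervalIntegral.integral_congr fun t _ => ?_
        show t * dpsi (a s) (b s) (l s) t = t * w 0 t + t * w 1 t
        rw [hw t]
        ring
      have e2 : ∏ r, vv (a (s.succAbove r)) (b (s.succAbove r)) (l (s.succAbove r)) =
          ∏ r, (∫ t in (0 : ℝ)..1,
              t * dpsi (a (s.succAbove r)) (b (s.succAbove r)) (l (s.succAbove r)) t) :=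
        prod_congr rfl fun r _ => (int_t_dpsi _ _ (hab _).1 (hab _).2.1 (hb1 _) _).symm
      rw [e1, e2]
      ring
    have e3 : ∑ i ∈ range N, ∏ r, psi (a r) (b r) (l r) (z i r) - N * ∏ r, vv (a r) (b r) (l r) =
        (∑ j ∈ range N, (∫ t in (z j s)..1, w 0 t) *
            ∏ r, (∫ t in (z j (s.succAbove r))..1,
              dpsi (a (s.succAbove r)) (b (s.succAbove r)) (l (s.succAbove r)) t) -
          N * ((∫ t in (0 : ℝ)..1, t * w 0 t) *
            ∏ r, ∫ t in (0 : ℝ)..1,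
              t * dpsi (a (s.succAbove r)) (b (s.succAbove r)) (l (s.succAbove r)) t)) +
        (∑ j ∈ range N, (∫ t in (z j s)..1, w 1 t) *
            ∏ r, (∫ t in (z j (s.succAbove r))..1,
              dpsi (a (s.succAbove r)) (b (s.succAbove r)) (l (s.succAbove r)) t) -
          N * ((∫ t in (0 : ℝ)..1, t * w 1 t) *
            ∏ r, ∫ t in (0 : ℝ)..1,
              t * dpsi (a (s.succAbove r)) (b (s.succAbove r)) (l (s.succAbove r)) t)) := by
      rw [sum_congr rfl fun j _ => hpsi j, sum_add_distrib, hvv]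
      ring
    rw [e3]
    refine (abs_add_le _ _).trans ?_
    have h0 := hone 0
    have h1 := hone 1
    have h2 : 0 ≤ 8 * Real.sqrt (2 * m ^ 2 + 1) * Real.sqrt (ef k N κ τ) *
        (4 ^ (k + 1) * ∏ r, Real.sqrt 2 ^ l r) := by positivity
    nlinarith
  · -- global test
    push Not at hcase
    have ht := test z (fun j => Pool.Agent.H36.KS.mem_cube_Q h j) N
      (fun r => dpsi (a r) (b r) (l r)) (fun r => 4 * 2 ^ (l r))
      (fun r => dpsi_meas _ _ _) (fun r t => dpsi_bd _ _ _ _)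
    have h2 : ∀ i, ∏ r, (∫ t in (z i r)..1, dpsi (a r) (b r) (l r) t) =
        ∏ r, psi (a r) (b r) (l r) (z i r) := fun i =>
      prod_congr rfl fun r _ => int_dpsi _ _ (hab r).1 (hab r).2.1 (hb1 r) _ _ (hz i r).1
        (hz i r).2.le
    have h3 : ∏ r, (∫ t in (0 : ℝ)..1, t * dpsi (a r) (b r) (l r) t) =
        ∏ r, vv (a r) (b r) (l r) :=
      prod_congr rfl fun r _ => int_t_dpsi _ _ (hab r).1 (hab r).2.1 (hb1 r) _
    rw [sum_congr rfl fun i _ => h2 i, h3] at ht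
    refine ht.trans ?_
    have h4 : ∏ r, Real.sqrt (∫ t in (0 : ℝ)..1, dpsi (a r) (b r) (l r) t ^ 2) ≤
        4 ^ (k + 1) * ∏ r, (Real.sqrt 2) ^ (l r) := by
      rw [← hprod]
      exact prod_le_prod (fun r _ => Real.sqrt_nonneg _) fun r _ => sqrt_sixteen _
        (int_sq _ _ (hab r).1 (hab r).2.1 (hb1 r) _)
    have hlow : 1 / 64 * (N : ℝ) ≤ ef k N κ τ := by
      have h5 : 1 / 8 ≤ τ / κ := by
        rw [le_div_iff₀ hκ]
        linarith
      have h6 := YY_nonneg (k := k) hN1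
      have h7 := lg_ge_one hN1
      have h8 : 1 / 64 ≤ (τ / κ) ^ 2 := by nlinarith
      have h9 : 1 / 64 * (N : ℝ) ≤ N * (τ / κ) ^ 2 := by nlinarith
      unfold ef
      have h10 : 0 ≤ YY k N * τ := by positivity
      have h11 : 0 ≤ (N : ℝ) * (τ / κ) ^ 2 + YY k N * τ := by positivity
      have h12 := le_mul_of_one_le_right h11 h7
      linarith
    have hen : Real.sqrt (en z N) ≤ 8 * Real.sqrt (2 * m ^ 2 + 1) * Real.sqrt (ef k N κ τ) := by
      refine Real.sqrt_le_iff.mpr ⟨by positivity, ?_⟩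
      rw [mul_pow, mul_pow, Real.sq_sqrt (by positivity), Real.sq_sqrt hee]
      have h5 := en_le h N hm
      have h6 : (2 * (m : ℝ) ^ 2 + N) ≤ (2 * m ^ 2 + 1) * N := by
        have : 0 ≤ (m : ℝ) ^ 2 := by positivity
        nlinarith
      have h7 : (N : ℝ) ≤ 8 ^ 2 * ef k N κ τ := by linarith
      calc en z N ≤ (2 * m ^ 2 + 1) * N := h5.trans h6
        _ ≤ (2 * m ^ 2 + 1) * (8 ^ 2 * ef k N κ τ) :=
            mul_le_mul_of_nonneg_left h7 (by positivity)
        _ = 8 ^ 2 * (2 * m ^ 2 + 1) * ef k N κ τ := by ring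
    calc Real.sqrt (en z N) * ∏ r, Real.sqrt (∫ t in (0 : ℝ)..1, dpsi (a r) (b r) (l r) t ^ 2) ≤
        (8 * Real.sqrt (2 * m ^ 2 + 1) * Real.sqrt (ef k N κ τ)) *
          (4 ^ (k + 1) * ∏ r, (Real.sqrt 2) ^ (l r)) :=
          mul_le_mul hen h4 (prod_nonneg fun r _ => Real.sqrt_nonneg _) (by positivity)
      _ ≤ 4 ^ (k + 1) * (4 * Real.sqrt C + 8 * Real.sqrt (2 * m ^ 2 + 1)) *
          Real.sqrt (ef k N κ τ) * ∏ r, Real.sqrt 2 ^ l r := by
          have h5 : 0 ≤ 4 * Real.sqrt C * Real.sqrt (ef k N κ τ) *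
            (4 ^ (k + 1) * ∏ r, Real.sqrt 2 ^ l r) := by positivity
          nlinarith

end Pool.Agent.H36.KJ
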