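import Pool.Agent.H36.KJ.Defs

set_option autoImplicit false

/-!
# [H36 KJ Csum2] sum of the costs, with the distances to the upper faces
-/

namespace Pool.Agent.H36.KJ

open Finset
open Pool.Agent.H36.KI (lg YY)
open Pool.Agent.H36.KD (idx)

private lemma lg_ge {N : ℕ} (hN : 1 ≤ N) : 1 ≤ lg N := by
  unfold Pool.Agent.H36.KI.lg
  have : 0 ≤ Real.log N := Real.log_nonneg (by exact_mod_cast hN)
  linarith

private lemma sqrt_ef (n Y g ρ τ : ℝ) (hn : 0 ≤ n) (hY : 0 ≤ Y) (hg : 0 ≤ g) (hρ : 0 ≤ ρ)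
    (hτ : 0 ≤ τ) :
    Real.sqrt ((n * ρ ^ 2 + Y * τ) * g) ≤
      Real.sqrt g * (Real.sqrt n * ρ + Real.sqrt Y * Real.sqrt τ) := by
  rw [Real.sqrt_le_iff]
  refine ⟨by positivity, ?_⟩
  have h1 := Real.sq_sqrt hg
  have h2 := Real.sq_sqrt hn
  have h3 := Real.sq_sqrt hY
  have h4 := Real.sq_sqrt hτ
  have e : (Real.sqrt g * (Real.sqrt n * ρ + Real.sqrt Y * Real.sqrt τ)) ^ 2 =
      Real.sqrt g ^ 2 * (Real.sqrt n ^ 2 * ρ ^ 2 + 2 * (Real.sqrt n * ρ * Real.sqrt Y * Real.sqrt τ) +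
        Real.sqrt Y ^ 2 * Real.sqrt τ ^ 2) := by ring
  rw [e, h1, h2, h3, h4]
  have h5 : 0 ≤ g * (2 * (Real.sqrt n * ρ * Real.sqrt Y * Real.sqrt τ)) := by positivity
  nlinarith

private lemma prod_eq (k : ℕ) (l : Fin (k + 1) → ℕ) :
    ∏ r, Real.sqrt 2 ^ l r = (2 : ℝ) ^ (((∑ r, l r : ℕ) : ℝ) / 2) := by
  rw [Finset.prod_pow_eq_pow_sum, Real.sqrt_eq_rpow, ← Real.rpow_natCast, ← Real.rpow_mul (by norm_num)]
  congr 1
  ring

private lemma ratio_bd (k : ℕ) (δ : Fin (k + 1) → ℝ) (hδ : ∀ r, 0 < δ r) (l : Fin (k + 1) → ℕ)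
    (ρ : ℝ) (hρ : 0 ≤ ρ) (h : ∀ r, ρ ≤ 1 / 2 ^ l r / δ r) :
    ρ ≤ (2 : ℝ) ^ (-((∑ r, l r : ℕ) : ℝ) * (1 / ((k : ℝ) + 1))) *
      (∏ r, δ r) ^ (-(1 / ((k : ℝ) + 1))) := by
  have hp : 0 < ∏ r, δ r := Finset.prod_pos fun r _ => hδ r
  have h1 : ρ ^ (k + 1) ≤ (2 : ℝ) ^ (-((∑ r, l r : ℕ) : ℝ)) / ∏ r, δ r := by
    calc ρ ^ (k + 1) = ∏ _r : Fin (k + 1), ρ := by simp
      _ ≤ ∏ r, (1 / 2 ^ l r / δ r) := Finset.prod_le_prod (fun _ _ => hρ) fun r _ => h r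
      _ = _ := by
        rw [Finset.prod_div_distrib, Finset.prod_div_distrib, Finset.prod_const_one,
          Finset.prod_pow_eq_pow_sum, Real.rpow_neg (by norm_num), Real.rpow_natCast, one_div]
  have h2 : ρ = (ρ ^ (k + 1)) ^ (((k + 1 : ℕ) : ℝ)⁻¹) :=
    (Real.pow_rpow_inv_natCast hρ (Nat.succ_ne_zero k)).symm
  have he : (((k + 1 : ℕ) : ℝ)⁻¹) = 1 / ((k : ℝ) + 1) := by
    push_cast
    rw [one_div]
  rw [he] at h2
  rw [h2]
  refine (Real.rpow_le_rpow (by positivity) h1 (by positivity)).trans (le_of_eq ?_)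
  rw [Real.div_rpow (by positivity) hp.le, ← Real.rpow_mul (by norm_num), Real.rpow_neg hp.le,
    div_eq_mul_inv]

/-- sum of the costs; `s l` is a coordinate with the smallest ratio `2^{-l r} / δ r` -/
theorem csum2 (k L N : ℕ) (hk : 1 ≤ k) (hN : 1 ≤ N) (δ : Fin (k + 1) → ℝ)
    (hδ : ∀ r, 0 < δ r ∧ δ r ≤ 1) (s : (Fin (k + 1) → ℕ) → Fin (k + 1))
    (hs : ∀ (l : Fin (k + 1) → ℕ) (r : Fin (k + 1)),
      1 / 2 ^ l (s l) / δ (s l) ≤ 1 / 2 ^ l r / δ r) :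
    ∑ l ∈ (idx (k + 1) L).filter (fun l => ∑ r, l r ≤ L),
        Real.sqrt (ef k N (δ (s l)) (1 / 2 ^ l (s l))) * ∏ r, Real.sqrt 2 ^ l r ≤
      ((L : ℝ) + 1) ^ (k + 1) * Real.sqrt (lg N) *
        (Real.sqrt N * (2 : ℝ) ^ ((L : ℝ) * (1 / 2 - 1 / ((k : ℝ) + 1))) *
            (∏ r, δ r) ^ (-(1 / ((k : ℝ) + 1))) +
          Real.sqrt (YY k N) * (2 : ℝ) ^ ((L : ℝ) * (1 / 2 - 1 / (2 * ((k : ℝ) + 1)))) *
            (∏ r, δ r) ^ (-(1 / (2 * ((k : ℝ) + 1))))) := by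
  have hlg := lg_ge hN
  have hN0 : (0 : ℝ) ≤ N := Nat.cast_nonneg N
  have hY0 : 0 ≤ YY k N := by
    unfold Pool.Agent.H36.KI.YY
    have : 0 ≤ lg N := by linarith
    positivity
  have hkR : (1 : ℝ) ≤ k := by exact_mod_cast hk
  obtain ⟨p, hp⟩ : ∃ p : ℝ, p = ∏ r, δ r := ⟨_, rfl⟩
  have hp0 : 0 < p := by
    rw [hp]
    exact Finset.prod_pos fun r _ => (hδ r).1
  rw [← hp]
  obtain ⟨B, hB⟩ : ∃ B : ℝ, B = Real.sqrt (lg N) *
        (Real.sqrt N * (2 : ℝ) ^ ((L : ℝ) * (1 / 2 - 1 / ((k : ℝ) + 1))) *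
            p ^ (-(1 / ((k : ℝ) + 1))) +
          Real.sqrt (YY k N) * (2 : ℝ) ^ ((L : ℝ) * (1 / 2 - 1 / (2 * ((k : ℝ) + 1)))) *
            p ^ (-(1 / (2 * ((k : ℝ) + 1))))) := ⟨_, rfl⟩
  have hB0 : 0 ≤ B := by rw [hB]; positivity
  have hterm : ∀ l ∈ (idx (k + 1) L).filter (fun l => ∑ r, l r ≤ L),
      Real.sqrt (ef k N (δ (s l)) (1 / 2 ^ l (s l))) * ∏ r, Real.sqrt 2 ^ l r ≤ B := by
    intro l hl
    have hS := (mem_filter.mp hl).2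
    obtain ⟨τ, hτ⟩ : ∃ τ : ℝ, τ = 1 / 2 ^ l (s l) := ⟨_, rfl⟩
    have hτ0 : 0 < τ := by rw [hτ]; positivity
    have hd := hδ (s l)
    obtain ⟨ρ, hρ⟩ : ∃ ρ : ℝ, ρ = τ / δ (s l) := ⟨_, rfl⟩
    have hρ0 : 0 < ρ := by rw [hρ]; exact div_pos hτ0 hd.1
    have hτρ : τ ≤ ρ := by
      rw [hρ, le_div_iff₀ hd.1]
      nlinarith [hd.2]
    have hbd := ratio_bd k δ (fun r => (hδ r).1) l ρ hρ0.le (fun r => by
      rw [hρ, hτ]; exact hs l r)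
    rw [← hp] at hbd
    obtain ⟨S, hSd⟩ : ∃ S : ℝ, S = ((∑ r, l r : ℕ) : ℝ) := ⟨_, rfl⟩
    have hS0 : 0 ≤ S := by rw [hSd]; positivity
    have hSL : S ≤ L := by rw [hSd]; exact_mod_cast hS
    rw [← hSd] at hbd
    have hsq : Real.sqrt τ ≤ (2 : ℝ) ^ (-S * (1 / (2 * ((k : ℝ) + 1)))) *
        p ^ (-(1 / (2 * ((k : ℝ) + 1)))) := by
      refine (Real.sqrt_le_sqrt (hτρ.trans hbd)).trans (le_of_eq ?_)
      rw [Real.sqrt_mul (by positivity), Real.sqrt_eq_rpow, Real.sqrt_eq_rpow,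
        ← Real.rpow_mul (by norm_num), ← Real.rpow_mul hp0.le]
      congr 1
      · congr 1
        field_simp
      · congr 1
        field_simp
    rw [prod_eq, ← hSd, ← hτ]
    unfold ef
    rw [← hρ]
    have h1 := sqrt_ef N (YY k N) (lg N) ρ τ hN0 hY0 (by linarith) hρ0.le hτ0.le
    have hq : (0 : ℝ) ≤ (2 : ℝ) ^ (S / 2) := by positivity
    have e1 : ρ * (2 : ℝ) ^ (S / 2) ≤ (2 : ℝ) ^ ((L : ℝ) * (1 / 2 - 1 / ((k : ℝ) + 1))) *
        p ^ (-(1 / ((k : ℝ) + 1))) := by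
      refine (mul_le_mul_of_nonneg_right hbd hq).trans ?_
      have h2 : (2 : ℝ) ^ (-S * (1 / ((k : ℝ) + 1))) * p ^ (-(1 / ((k : ℝ) + 1))) *
          (2 : ℝ) ^ (S / 2) = (2 : ℝ) ^ (S * (1 / 2 - 1 / ((k : ℝ) + 1))) *
          p ^ (-(1 / ((k : ℝ) + 1))) := by
        have : (2 : ℝ) ^ (S * (1 / 2 - 1 / ((k : ℝ) + 1))) =
            (2 : ℝ) ^ (-S * (1 / ((k : ℝ) + 1))) * (2 : ℝ) ^ (S / 2) := by
          rw [← Real.rpow_add (by norm_num)]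
          congr 1
          ring
        rw [this]
        ring
      rw [h2]
      apply mul_le_mul_of_nonneg_right _ (by positivity)
      apply Real.rpow_le_rpow_of_exponent_le (by norm_num)
      have h3 : 0 ≤ (1 / 2 - 1 / ((k : ℝ) + 1)) := by
        have : 1 / ((k : ℝ) + 1) ≤ 1 / 2 := by
          apply one_div_le_one_div_of_le (by norm_num)
          linarith
        linarith
      exact mul_le_mul_of_nonneg_right hSL h3
    have e2 : Real.sqrt τ * (2 : ℝ) ^ (S / 2) ≤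
        (2 : ℝ) ^ ((L : ℝ) * (1 / 2 - 1 / (2 * ((k : ℝ) + 1)))) *
        p ^ (-(1 / (2 * ((k : ℝ) + 1)))) := by
      refine (mul_le_mul_of_nonneg_right hsq hq).trans ?_
      have h2 : (2 : ℝ) ^ (-S * (1 / (2 * ((k : ℝ) + 1)))) * p ^ (-(1 / (2 * ((k : ℝ) + 1)))) *
          (2 : ℝ) ^ (S / 2) = (2 : ℝ) ^ (S * (1 / 2 - 1 / (2 * ((k : ℝ) + 1)))) *
          p ^ (-(1 / (2 * ((k : ℝ) + 1)))) := by
        have : (2 : ℝ) ^ (S * (1 / 2 - 1 / (2 * ((k : ℝ) + 1)))) =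
            (2 : ℝ) ^ (-S * (1 / (2 * ((k : ℝ) + 1)))) * (2 : ℝ) ^ (S / 2) := by
          rw [← Real.rpow_add (by norm_num)]
          congr 1
          ring
        rw [this]
        ring
      rw [h2]
      apply mul_le_mul_of_nonneg_right _ (by positivity)
      apply Real.rpow_le_rpow_of_exponent_le (by norm_num)
      have h3 : 0 ≤ (1 / 2 - 1 / (2 * ((k : ℝ) + 1))) := by
        have : 1 / (2 * ((k : ℝ) + 1)) ≤ 1 / 2 := by
          apply one_div_le_one_div_of_le (by norm_num)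
          linarith
        linarith
      exact mul_le_mul_of_nonneg_right hSL h3
    calc _ ≤ Real.sqrt (lg N) * (Real.sqrt N * ρ + Real.sqrt (YY k N) * Real.sqrt τ) *
          (2 : ℝ) ^ (S / 2) := mul_le_mul_of_nonneg_right h1 hq
      _ = Real.sqrt (lg N) * (Real.sqrt N * (ρ * (2 : ℝ) ^ (S / 2)) +
          Real.sqrt (YY k N) * (Real.sqrt τ * (2 : ℝ) ^ (S / 2))) := by
        ring
      _ ≤ Real.sqrt (lg N) * (Real.sqrt N * ((2 : ℝ) ^ ((L : ℝ) * (1 / 2 - 1 / ((k : ℝ) + 1))) *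
            p ^ (-(1 / ((k : ℝ) + 1)))) +
          Real.sqrt (YY k N) * ((2 : ℝ) ^ ((L : ℝ) * (1 / 2 - 1 / (2 * ((k : ℝ) + 1)))) *
            p ^ (-(1 / (2 * ((k : ℝ) + 1)))))) := by
        apply mul_le_mul_of_nonneg_left _ (Real.sqrt_nonneg _)
        exact add_le_add (mul_le_mul_of_nonneg_left e1 (Real.sqrt_nonneg _))
          (mul_le_mul_of_nonneg_left e2 (Real.sqrt_nonneg _))
      _ = B := by
        rw [hB]
        ring
  have hcard : (((idx (k + 1) L).filter (fun l => ∑ r, l r ≤ L)).card : ℝ) ≤ ((L : ℝ) + 1) ^ (k + 1) := by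
    have h1 : ((idx (k + 1) L).filter (fun l => ∑ r, l r ≤ L)).card ≤ (L + 1) ^ (k + 1) := by
      refine (card_filter_le _ _).trans ?_
      unfold Pool.Agent.H36.KD.idx
      rw [Fintype.card_piFinset]
      simp
    exact_mod_cast h1
  calc _ ≤ ∑ _l ∈ (idx (k + 1) L).filter (fun l => ∑ r, l r ≤ L), B := sum_le_sum hterm
    _ = (((idx (k + 1) L).filter (fun l => ∑ r, l r ≤ L)).card : ℝ) * B := by
      rw [sum_const, nsmul_eq_mul]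
    _ ≤ ((L : ℝ) + 1) ^ (k + 1) * B := mul_le_mul_of_nonneg_right hcard hB0
    _ = _ := by rw [hB]; ring

end Pool.Agent.H36.KJ
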