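import Pool.Agent.H36.KI.Cnt

set_option autoImplicit false

/-!
# [H36 KJ Defs] a bound for every box, in terms of its distances to the upper faces: definitions
-/

namespace Pool.Agent.H36.KJ

open Pool.Agent.H36.KI (lg YY)

/-- bound for the energy of a slab of half-width `τ` at distance `δ` from the upper face -/
noncomputable def ef (k N : ℕ) (δ τ : ℝ) : ℝ := (N * (τ / δ) ^ 2 + YY k N * τ) * lg N

end Pool.Agent.H36.KJ
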