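import Mathlib

set_option autoImplicit false

namespace Pool.Agent.H36.KJ

/-- `B = N / R` dominates all terms; `p` is the product of the distances to the upper faces -/
theorem num2 (k : ℕ) (hk : 1 ≤ k) (N p : ℝ) (hN : 2 ≤ N) (hp : 0 < p) (hp1 : p ≤ 1) (R B : ℝ)
    (hR : R = N ^ (((k : ℝ) + 1) / (3 * k + 1)) * p ^ (2 / (3 * (k : ℝ) + 1)))
    (hB : B = N ^ (2 * (k : ℝ) / (3 * k + 1)) * p ^ (-(2 / (3 * (k : ℝ) + 1)))) :
    0 < R ∧ 0 < B ∧ B * R = N ∧ R ≤ N ∧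
      Real.sqrt N * R ^ (1 / 2 - 1 / ((k : ℝ) + 1)) * p ^ (-(1 / ((k : ℝ) + 1))) ≤ B ∧
      N ^ (1 / 3 : ℝ) * R ^ (1 / 2 - 1 / (2 * ((k : ℝ) + 1))) * p ^ (-(1 / (2 * ((k : ℝ) + 1)))) ≤ B ∧
      (N ^ (-(1 / 3 : ℝ)) ≤ p → Real.sqrt (N / p) ≤ B) ∧
      (p ≤ N ^ (-(1 / 3 : ℝ)) → N ^ (2 / 3 : ℝ) ≤ B) := by
  have hkR : (1 : ℝ) ≤ k := by exact_mod_cast hk
  have hN0 : (0 : ℝ) < N := by linarith
  obtain ⟨x, hx⟩ : ∃ x, x = Real.log N := ⟨_, rfl⟩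
  obtain ⟨y, hy⟩ : ∃ y, y = -Real.log p := ⟨_, rfl⟩
  have hx0 : 0 ≤ x := by rw [hx]; exact Real.log_nonneg (by linarith)
  have hy0 : 0 ≤ y := by
    rw [hy]
    have := Real.log_nonpos hp.le hp1
    linarith
  have eN : N = Real.exp x := by rw [hx, Real.exp_log hN0]
  have ep : p = Real.exp (-y) := by rw [hy, neg_neg, Real.exp_log hp]
  have pw : ∀ u v : ℝ, (Real.exp u) ^ v = Real.exp (u * v) := fun u v => (Real.exp_mul u v).symm
  have h1 : (0 : ℝ) < 3 * k + 1 := by linarith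
  have h2 : (0 : ℝ) < (k : ℝ) + 1 := by linarith
  have eR : R = Real.exp ((x * ((k : ℝ) + 1) - 2 * y) / (3 * k + 1)) := by
    rw [hR, eN, ep, pw, pw, ← Real.exp_add]
    congr 1
    field_simp
    ring
  have eB : B = Real.exp ((2 * x * (k : ℝ) + 2 * y) / (3 * k + 1)) := by
    rw [hB, eN, ep, pw, pw, ← Real.exp_add]
    congr 1
    field_simp
  refine ⟨by rw [eR]; exact Real.exp_pos _, by rw [eB]; exact Real.exp_pos _, ?_, ?_, ?_, ?_, ?_, ?_⟩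
  · rw [eR, eB, eN, ← Real.exp_add]
    congr 1
    field_simp
    ring
  · rw [eR, eN, Real.exp_le_exp, div_le_iff₀ h1]
    nlinarith
  · rw [Real.sqrt_eq_rpow, eR, eB, eN, ep, pw, pw, pw, ← Real.exp_add, ← Real.exp_add]
    refine le_of_eq ?_
    congr 1
    field_simp
    ring
  · rw [eR, eB, eN, ep, pw, pw, pw, ← Real.exp_add, ← Real.exp_add, Real.exp_le_exp]
    have e : (2 * x * (k : ℝ) + 2 * y) / (3 * k + 1) -
        (x * (1 / 3) + (x * ((k : ℝ) + 1) - 2 * y) / (3 * k + 1) * (1 / 2 - 1 / (2 * ((k : ℝ) + 1))) +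
          -y * -(1 / (2 * ((k : ℝ) + 1)))) = (x * (3 * k - 2) + 9 * y) / (6 * (3 * k + 1)) := by
      field_simp
      ring
    have e2 : 0 ≤ (x * (3 * (k : ℝ) - 2) + 9 * y) / (6 * (3 * k + 1)) := by
      apply div_nonneg
      · have : 0 ≤ x * (3 * (k : ℝ) - 2) := mul_nonneg hx0 (by linarith)
        linarith
      · linarith
    linarith
  · intro h
    rw [eN, ep, pw, Real.exp_le_exp] at h
    rw [Real.sqrt_eq_rpow, eB, eN, ep, ← Real.exp_sub, pw, Real.exp_le_exp, le_div_iff₀ h1]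
    have h3 : 0 ≤ ((k : ℝ) - 1) * (x - 3 * y) := mul_nonneg (by linarith) (by linarith)
    nlinarith
  · intro h
    rw [eN, ep, pw, Real.exp_le_exp] at h
    rw [eB, eN, pw, Real.exp_le_exp, le_div_iff₀ h1]
    nlinarith

end Pool.Agent.H36.KJ
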