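import Pool.Agent.H36.KI.Top

set_option autoImplicit false

/-!
# [H36 KJ Top2] upper bound for a box `[0,q)` from lower bounds for the boxes below `T` and the energy, coordinatewise

For `q ≤ y ≤ T` the set `[0,y)` minus `[0,q)` is a union of `d` boxes, so `mu [0,q) ≤ mu [0,y) + d M`; average over `y` in
the box `∏ [T' r, T r]`.
-/

namespace Pool.Agent.H36.KJ

open Finset
open Pool.Agent.H36.KD (mu en)
open MeasureTheory
open Pool.Agent.H36.KS (Q ind)

/-- cutting a box by a hyperplane -/
private theorem mu_cut {d : ℕ} (z : ℕ → Fin d → ℝ) (N : ℕ) (a b : Fin d → ℝ) (r : Fin d) (c : ℝ)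
    (h1 : a r ≤ c) (h2 : c ≤ b r) :
    mu z N a b = mu z N a (Function.update b r c) + mu z N (Function.update a r c) b := by
  have hcount : (((range N).filter (fun i => ∀ r, a r ≤ z i r ∧ z i r < b r)).card : ℝ) =
      (((range N).filter (fun i => ∀ r', a r' ≤ z i r' ∧ z i r' < Function.update b r c r')).card : ℝ)
      + (((range N).filter (fun i => ∀ r', Function.update a r c r' ≤ z i r' ∧
        z i r' < b r')).card : ℝ) := by
    have hnat : ((range N).filter (fun i => ∀ r, a r ≤ z i r ∧ z i r < b r)).card =
      ((range N).filter (fun i => ∀ r', a r' ≤ z i r' ∧ z i r' < Function.update b r c r')).card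
      + ((range N).filter (fun i => ∀ r', Function.update a r c r' ≤ z i r' ∧
        z i r' < b r')).card := by
      rw [Finset.card_filter, Finset.card_filter, Finset.card_filter, ← Finset.sum_add_distrib]
      refine Finset.sum_congr rfl fun i _ => ?_
      have e1 : (∀ r', a r' ≤ z i r' ∧ z i r' < Function.update b r c r') ↔
          (∀ r, a r ≤ z i r ∧ z i r < b r) ∧ z i r < c := by
        constructor
        · intro h
          have hr : z i r < c := by
            have := (h r).2
            rwa [Function.update_self] at this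
          refine ⟨fun r' => ⟨(h r').1, ?_⟩, hr⟩
          by_cases hrr : r' = r
          · subst hrr
            exact lt_of_lt_of_le hr h2
          · have := (h r').2
            rwa [Function.update_of_ne hrr] at this
        · rintro ⟨h, hr⟩ r'
          refine ⟨(h r').1, ?_⟩
          by_cases hrr : r' = r
          · subst hrr
            rwa [Function.update_self]
          · rw [Function.update_of_ne hrr]
            exact (h r').2
      have e2 : (∀ r', Function.update a r c r' ≤ z i r' ∧ z i r' < b r') ↔
          (∀ r, a r ≤ z i r ∧ z i r < b r) ∧ ¬ z i r < c := by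
        constructor
        · intro h
          have hr : c ≤ z i r := by
            have := (h r).1
            rwa [Function.update_self] at this
          refine ⟨fun r' => ⟨?_, (h r').2⟩, not_lt.2 hr⟩
          by_cases hrr : r' = r
          · subst hrr
            exact h1.trans hr
          · have := (h r').1
            rwa [Function.update_of_ne hrr] at this
        · rintro ⟨h, hr⟩ r'
          refine ⟨?_, (h r').2⟩
          by_cases hrr : r' = r
          · subst hrr
            rw [Function.update_self]
            exact not_lt.1 hr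
          · rw [Function.update_of_ne hrr]
            exact (h r').1
      by_cases hP : ∀ r, a r ≤ z i r ∧ z i r < b r
      · by_cases hc : z i r < c
        · rw [if_pos hP, if_pos (e1.2 ⟨hP, hc⟩), if_neg (fun h => (e2.1 h).2 hc)]
        · rw [if_pos hP, if_neg (fun h => hc (e1.1 h).2), if_pos (e2.2 ⟨hP, hc⟩)]
      · rw [if_neg hP, if_neg (fun h => hP (e1.1 h).1), if_neg (fun h => hP (e2.1 h).1)]
    exact_mod_cast hnat
  have hvol : ∏ r, (b r - a r) = ∏ r', (Function.update b r c r' - a r') +
      ∏ r', (b r' - Function.update a r c r') := by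
    rw [← Finset.mul_prod_erase univ (fun r => b r - a r) (mem_univ r),
      ← Finset.mul_prod_erase univ (fun r' => Function.update b r c r' - a r') (mem_univ r),
      ← Finset.mul_prod_erase univ (fun r' => b r' - Function.update a r c r') (mem_univ r)]
    have p1 : ∏ x ∈ univ.erase r, (Function.update b r c x - a x) =
        ∏ x ∈ univ.erase r, (b x - a x) :=
      Finset.prod_congr rfl fun x hx => by
        rw [Function.update_of_ne (Finset.ne_of_mem_erase hx)]
    have p2 : ∏ x ∈ univ.erase r, (b x - Function.update a r c x) =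
        ∏ x ∈ univ.erase r, (b x - a x) :=
      Finset.prod_congr rfl fun x hx => by
        rw [Function.update_of_ne (Finset.ne_of_mem_erase hx)]
    simp only [Function.update_self]
    rw [p1, p2]
    ring
  unfold mu
  rw [hcount, hvol]
  ring

/-- comparison of two boxes with one corner at `0` -/
private theorem up {d : ℕ} (z : ℕ → Fin d → ℝ) (N : ℕ) (T : Fin d → ℝ) (M : ℝ)
    (hM : ∀ a b : Fin d → ℝ, (∀ r, 0 ≤ a r ∧ a r ≤ b r ∧ b r ≤ T r) → -M ≤ mu z N a b)
    (q y : Fin d → ℝ) (hq : ∀ r, 0 ≤ q r ∧ q r ≤ y r) (hy : ∀ r, y r ≤ T r) :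
    mu z N 0 q ≤ mu z N 0 y + d * M := by
  classical
  have key : ∀ S : Finset (Fin d),
      mu z N 0 (fun r => if r ∈ S then q r else y r) ≤ mu z N 0 y + (S.card : ℝ) * M := by
    intro S
    induction S using Finset.induction_on with
    | empty => simp
    | insert r S hr ih =>
      have hcut := mu_cut z N 0 (fun r => if r ∈ S then q r else y r) r (q r) (by
        simpa using (hq r).1) (by
        simp only [if_neg hr]
        exact (hq r).2)
      have hup : Function.update (fun r => if r ∈ S then q r else y r) r (q r) =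
          fun r' => if r' ∈ insert r S then q r' else y r' := by
        funext r'
        by_cases hrr : r' = r
        · subst hrr
          simp
        · rw [Function.update_of_ne hrr]
          simp [hrr]
      rw [hup] at hcut
      have hlow := hM (Function.update 0 r (q r)) (fun r => if r ∈ S then q r else y r) (by
        intro r'
        by_cases hrr : r' = r
        · subst hrr
          rw [Function.update_self]
          simp only [if_neg hr]
          exact ⟨(hq r').1, (hq r').2, hy r'⟩
        · rw [Function.update_of_ne hrr]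
          refine ⟨le_rfl, ?_, ?_⟩
          · show (0 : ℝ) ≤ if r' ∈ S then q r' else y r'
            split_ifs
            · exact (hq r').1
            · exact (hq r').1.trans (hq r').2
          · show (if r' ∈ S then q r' else y r') ≤ T r'
            split_ifs
            · exact (hq r').2.trans (hy r')
            · exact hy r')
      rw [Finset.card_insert_of_notMem hr]
      push_cast
      linarith [hcut, hlow, ih]
  have h := key univ
  simpa using h

private theorem mu_eq {d : ℕ} (z : ℕ → Fin d → ℝ) (hz : ∀ j r, 0 ≤ z j r ∧ z j r < 1) (N : ℕ)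
    (y : Fin d → ℝ) : mu z N 0 y = ∑ i ∈ range N, ind (z i) y - N * ∏ r, y r := by
  unfold KD.mu
  congr 1
  · rw [card_filter]
    push_cast
    refine sum_congr rfl fun i _ => ?_
    rw [KS.ind_eq]
    have e : (∀ r, (0 : Fin d → ℝ) r ≤ z i r ∧ z i r < y r) ↔ ∀ r, z i r < y r :=
      ⟨fun h r => (h r).2, fun h r => ⟨(hz i r).1, h r⟩⟩
    simp only [e]
  · congr 1
    exact prod_congr rfl fun r _ => by rw [Pi.zero_apply, sub_zero]

/-- upper bound for `[0,q)` from lower bounds for all boxes below `T` and the energy -/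
theorem top2 {d : ℕ} (z : ℕ → Fin d → ℝ) (hz : ∀ j r, 0 ≤ z j r ∧ z j r < 1) (N : ℕ)
    (T' T : Fin d → ℝ) (hT0 : ∀ r, 0 ≤ T' r) (hT : ∀ r, T' r < T r) (hT1 : ∀ r, T r ≤ 1)
    (M : ℝ) (hM0 : 0 ≤ M)
    (hM : ∀ a b : Fin d → ℝ, (∀ r, 0 ≤ a r ∧ a r ≤ b r ∧ b r ≤ T r) → -M ≤ mu z N a b)
    (q : Fin d → ℝ) (hq : ∀ r, 0 ≤ q r ∧ q r ≤ T' r) :
    -M ≤ mu z N 0 q ∧
      mu z N 0 q ≤ Real.sqrt (en z N / ∏ r, (T r - T' r)) + d * M := by
  refine ⟨hM 0 q fun r => ⟨le_rfl, (hq r).1, (hq r).2.trans (hT r).le⟩, ?_⟩
  have hTT : ∀ r, 0 < T r - T' r := fun r => sub_pos.2 (hT r)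
  rcases le_or_gt (mu z N 0 q - d * M) 0 with hL | hL
  · have h1 : 0 ≤ Real.sqrt (en z N / ∏ r, (T r - T' r)) := Real.sqrt_nonneg _
    linarith
  have hfin : IsFiniteMeasure ((volume : Measure (Fin d → ℝ)).restrict (Q d)) :=
    ⟨by rw [Measure.restrict_apply_univ, KS.vol_Q]; exact ENNReal.one_lt_top⟩
  have hfm : Measurable (fun y => ∑ i ∈ range N, ind (z i) y - N * ∏ r, y r) :=
    (Finset.measurable_sum _ fun l _ => KS.ind_meas_right (z l)).sub ((KS.vol_meas d).const_mul _)
  have hfb : ∀ y ∈ Q d, |∑ i ∈ range N, ind (z i) y - N * ∏ r, y r| ≤ 2 * N := by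
    intro y hy
    have a1 : |∑ i ∈ range N, ind (z i) y| ≤ N := by
      refine (abs_sum_le_sum_abs _ _).trans ((sum_le_sum fun l _ => KS.ind_abs _ _).trans ?_)
      simp
    have a2 : |(N : ℝ) * ∏ r, y r| ≤ N := by
      rw [abs_mul, abs_of_nonneg (Nat.cast_nonneg N)]
      exact mul_le_of_le_one_right (Nat.cast_nonneg N) (KS.vol_abs y hy)
    have a3 := abs_sub (∑ i ∈ range N, ind (z i) y) ((N : ℝ) * ∏ r, y r)
    linarith
  have hint : IntegrableOn (fun y => (∑ i ∈ range N, ind (z i) y - N * ∏ r, y r) ^ 2) (Q d) := by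
    refine Integrable.mono' (integrable_const ((2 * (N : ℝ)) ^ 2))
      (hfm.pow_const 2).aestronglyMeasurable ?_
    refine ae_restrict_of_forall_mem measurableSet_Icc fun y hy => ?_
    rw [Real.norm_eq_abs, abs_pow]
    exact pow_le_pow_left₀ (abs_nonneg _) (hfb y hy) 2
  have hRQ : Set.Icc T' T ⊆ Q d := by
    intro y hy
    exact ⟨fun r => (hT0 r).trans (hy.1 r), fun r => (hy.2 r).trans (hT1 r)⟩
  have hle : T' ≤ T := fun r => (hT r).le
  have hvol : (volume : Measure (Fin d → ℝ)).real (Set.Icc T' T) = ∏ r, (T r - T' r) := by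
    unfold Measure.real
    rw [Real.volume_Icc_pi_toReal hle]
  have h1 : ∫ y in Set.Icc T' T, (mu z N 0 q - d * M) ^ 2 ≤
      ∫ y in Set.Icc T' T, (∑ i ∈ range N, ind (z i) y - N * ∏ r, y r) ^ 2 := by
    refine setIntegral_mono_on ?_ (hint.mono_set hRQ) measurableSet_Icc fun y hy => ?_
    · exact integrableOn_const (isCompact_Icc.measure_ne_top)
    · refine pow_le_pow_left₀ hL.le ?_ 2
      rw [← mu_eq z hz N y]
      have h2 := up z N T M hM q y (fun r => ⟨(hq r).1, (hq r).2.trans (hy.1 r)⟩) fun r => hy.2 r
      linarith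
  have h2 : ∫ y in Set.Icc T' T, (∑ i ∈ range N, ind (z i) y - N * ∏ r, y r) ^ 2 ≤ en z N := by
    unfold KD.en
    exact setIntegral_mono_set hint (Filter.Eventually.of_forall fun y => sq_nonneg _)
      (Filter.Eventually.of_forall hRQ)
  rw [setIntegral_const, hvol, smul_eq_mul] at h1
  have h4 : 0 < ∏ r, (T r - T' r) := Finset.prod_pos fun r _ => hTT r
  have h5 : (mu z N 0 q - d * M) ^ 2 ≤ en z N / ∏ r, (T r - T' r) := by
    rw [le_div_iff₀ h4, mul_comm]
    exact h1.trans h2
  have h6 := Real.le_sqrt_of_sq_le h5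
  linarith

end Pool.Agent.H36.KJ
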