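import Pool.Agent.H36.KJ.Cost2
import Pool.Agent.H36.KJ.Csum2
import Pool.Agent.H36.KJ.Top2
import Pool.Agent.H36.KJ.Num2
import Pool.Agent.H36.KI.Minor2

set_option autoImplicit false

/-!
# [H36 KJ Final2] a bound for every box: final assembly
-/

namespace Pool.Agent.H36.KJ

open Finset
open Pool.Agent.H47.KZ (IsKritzinger)
open Pool.Agent.H36.KD (mu en en_le en_nonneg S2 S2_le idx)
open Pool.Agent.H36.KI (lg YY lg_ge_one mu_bd minor2)

private theorem mu_ge {k : ℕ} (z : ℕ → Fin (k + 1) → ℝ) (N : ℕ) (a b : Fin (k + 1) → ℝ)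
    (hab : ∀ r, 0 ≤ a r ∧ a r ≤ b r ∧ b r ≤ 1) : -(N : ℝ) ≤ mu z N a b := by
  unfold mu
  have h1 : ∏ r, (b r - a r) ≤ 1 :=
    prod_le_one (fun r _ => by linarith [(hab r).2.1]) fun r _ => by
      linarith [(hab r).1, (hab r).2.2]
  have h2 : (0 : ℝ) ≤ N := Nat.cast_nonneg N
  have h3 : (N : ℝ) * ∏ r, (b r - a r) ≤ N * 1 := mul_le_mul_of_nonneg_left h1 h2
  have h4 : (0 : ℝ) ≤ (((range N).filter (fun i => ∀ r, a r ≤ z i r ∧ z i r < b r)).card : ℝ) :=
    Nat.cast_nonneg _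
  linarith

/-- lower bound for all boxes, distances to the upper faces explicit -/
theorem lowbd2 (k m : ℕ) (hk : 1 ≤ k) :
    ∃ C : ℝ, 0 ≤ C ∧ ∀ z : ℕ → Fin (k + 1) → ℝ, IsKritzinger (k + 1) m z →
    ∀ N : ℕ, m ≤ N → 2 ≤ N → ∀ a b δ : Fin (k + 1) → ℝ, (∀ r, 0 < δ r) →
      (∀ r, 0 ≤ a r ∧ a r ≤ b r ∧ b r ≤ 1 - δ r) →
      -(C * (lg N ^ (2 * (k + 1)) *
        ((N : ℝ) ^ (2 * (k : ℝ) / (3 * k + 1)) * (∏ r, δ r) ^ (-(2 / (3 * (k : ℝ) + 1)))))) ≤
        mu z N a b := by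
  obtain ⟨C, hC, hcost⟩ := cost2 k m
  refine ⟨((k : ℝ) + 1 + 2 ^ (k + 1)) * 2 ^ (k + 1) + C * 2 ^ (k + 2), by positivity, ?_⟩
  intro z h N hm hN a b δ hδ hab
  have hz : ∀ j r, 0 ≤ z j r ∧ z j r < 1 := fun j r => h.mem j r
  have hNR : (2 : ℝ) ≤ N := by exact_mod_cast hN
  have hN1 : 1 ≤ N := by omega
  have hN1R : (1 : ℝ) ≤ N := by linarith
  have hN0R : (0 : ℝ) < N := by linarith
  have hkR : (1 : ℝ) ≤ k := by exact_mod_cast hk
  have hlg := lg_ge_one hN1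
  have hlog2' : (1 : ℝ) / 2 ≤ Real.log 2 := by linarith [Real.log_two_gt_d9]
  have hδ1 : ∀ r, δ r ≤ 1 := fun r => by
    have := hab r
    linarith
  obtain ⟨p, hp⟩ : ∃ p : ℝ, p = ∏ r, δ r := ⟨_, rfl⟩
  have hp0 : 0 < p := by rw [hp]; exact prod_pos fun r _ => hδ r
  have hp1 : p ≤ 1 := by rw [hp]; exact prod_le_one (fun r _ => (hδ r).le) fun r _ => hδ1 r
  rw [← hp]
  obtain ⟨R, hR⟩ : ∃ R : ℝ, R = (N : ℝ) ^ (((k : ℝ) + 1) / (3 * k + 1)) *
    p ^ (2 / (3 * (k : ℝ) + 1)) := ⟨_, rfl⟩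
  obtain ⟨B, hB⟩ : ∃ B : ℝ, B = (N : ℝ) ^ (2 * (k : ℝ) / (3 * k + 1)) *
    p ^ (-(2 / (3 * (k : ℝ) + 1))) := ⟨_, rfl⟩
  obtain ⟨hR0, hB0, hBR, hRN, n5, n6, -, -⟩ := num2 k hk N p hNR hp0 hp1 R B hR hB
  rw [← hB]
  have hP2 : (1 : ℝ) ≤ lg N ^ (2 * (k + 1)) := one_le_pow₀ hlg
  by_cases hR1 : 1 ≤ R
  · obtain ⟨L, hL⟩ : ∃ L : ℕ, L = Nat.log 2 ⌊R⌋₊ := ⟨_, rfl⟩
    have hfl : 1 ≤ ⌊R⌋₊ := Nat.le_floor (by exact_mod_cast hR1)
    have hL1 : (2 : ℝ) ^ L ≤ R := by
      have h1 : 2 ^ L ≤ ⌊R⌋₊ := by rw [hL]; exact Nat.pow_log_le_self 2 (by omega)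
      have h2 : ((2 ^ L : ℕ) : ℝ) ≤ R := (Nat.cast_le.2 h1).trans (Nat.floor_le hR0.le)
      exact_mod_cast h2
    have hL2 : R < 2 ^ (L + 1) := by
      have h1 : ⌊R⌋₊ < 2 ^ (L + 1) := by rw [hL]; exact Nat.lt_pow_succ_log_self (by norm_num) _
      have h2 := (Nat.floor_lt hR0.le).1 h1
      exact_mod_cast h2
    have hT0 : (0 : ℝ) < 2 ^ L := by positivity
    have hLN : (L : ℝ) + 1 ≤ 2 * lg N := by
      have h1 : (L : ℝ) * Real.log 2 ≤ Real.log N := by
        have h2 : Real.log ((2 : ℝ) ^ L) ≤ Real.log N :=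
          Real.log_le_log hT0 (hL1.trans hRN)
        rwa [Real.log_pow] at h2
      have h3 : (L : ℝ) * (1 / 2) ≤ L * Real.log 2 :=
        mul_le_mul_of_nonneg_left hlog2' (Nat.cast_nonneg L)
      unfold lg
      linarith
    have hL0 : (0 : ℝ) ≤ L := Nat.cast_nonneg L
    -- the coordinate with the smallest ratio
    have hex : ∀ l : Fin (k + 1) → ℕ, ∃ r, ∀ r', 1 / 2 ^ l r / δ r ≤ 1 / 2 ^ l r' / δ r' :=
      fun l => by
        obtain ⟨r, _, hr⟩ := exists_min_image univ (fun r => 1 / 2 ^ l r / δ r) univ_nonempty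
        exact ⟨r, fun r' => hr r' (mem_univ _)⟩
    choose s hs using hex
    have hmin := minor2 z hz N L a b
      (fun r => ⟨(hab r).1, (hab r).2.1, (hab r).2.2.trans (by linarith [hδ r])⟩)
      (fun l => C * Real.sqrt (ef k N (δ (s l)) (1 / 2 ^ l (s l))) * ∏ r, Real.sqrt 2 ^ l r)
      (fun l hl => by
        refine hcost z h N hm hN a b δ hδ hab l (s l) ?_
        have h1 : l (s l) ≤ L := by
          have h2 : l (s l) ≤ ∑ r, l r := single_le_sum (fun r _ => Nat.zero_le _) (mem_univ (s l))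
          exact h2.trans (mem_filter.1 hl).2
        have h2 : (2 : ℝ) ^ l (s l) ≤ 2 ^ L := pow_le_pow_right₀ (by norm_num) h1
        exact h2.trans (hL1.trans hRN))
    refine le_trans ?_ hmin
    rw [neg_le_neg_iff]
    have hcs := csum2 k L N hk hN1 δ (fun r => ⟨hδ r, hδ1 r⟩) s hs
    rw [← hp] at hcs
    have hNL : (N : ℝ) / 2 ^ L ≤ 2 * B := by
      rw [div_le_iff₀ hT0, ← hBR]
      rw [pow_succ] at hL2
      nlinarith
    have e1 : (1 / 2 : ℝ) ^ L = 1 / 2 ^ L := by rw [one_div_pow]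
    have hLk : (1 : ℝ) ≤ ((L : ℝ) + 1) ^ k := one_le_pow₀ (by linarith)
    have hlk : ((L : ℝ) + 1) ^ k ≤ 2 ^ k * lg N ^ (2 * (k + 1)) := by
      calc ((L : ℝ) + 1) ^ k ≤ (2 * lg N) ^ k := pow_le_pow_left₀ (by positivity) hLN _
        _ = 2 ^ k * lg N ^ k := mul_pow _ _ _
        _ ≤ 2 ^ k * lg N ^ (2 * (k + 1)) :=
            mul_le_mul_of_nonneg_left (pow_le_pow_right₀ hlg (by omega)) (by positivity)
    have p1 : (N : ℝ) * (((k : ℝ) + 1) * (1 / 2) ^ L + S2 (k + 1) L) ≤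
        ((k : ℝ) + 1 + 2 ^ (k + 1)) * 2 ^ (k + 1) * (lg N ^ (2 * (k + 1)) * B) := by
      have hS2 := S2_le k L
      have h1 : ((k : ℝ) + 1) * (1 / 2) ^ L + S2 (k + 1) L ≤
          ((k : ℝ) + 1 + 2 ^ (k + 1)) * ((L : ℝ) + 1) ^ k * (1 / 2) ^ L := by
        have h2 : ((k : ℝ) + 1) * (1 / 2) ^ L ≤ ((k : ℝ) + 1) * ((L : ℝ) + 1) ^ k * (1 / 2) ^ L := by
          apply mul_le_mul_of_nonneg_right _ (by positivity)
          exact le_mul_of_one_le_right (by positivity) hLk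
        linarith
      calc (N : ℝ) * (((k : ℝ) + 1) * (1 / 2) ^ L + S2 (k + 1) L) ≤
          N * (((k : ℝ) + 1 + 2 ^ (k + 1)) * ((L : ℝ) + 1) ^ k * (1 / 2) ^ L) :=
            mul_le_mul_of_nonneg_left h1 (by linarith)
        _ = ((k : ℝ) + 1 + 2 ^ (k + 1)) * (((L : ℝ) + 1) ^ k * (N / 2 ^ L)) := by rw [e1]; ring
        _ ≤ ((k : ℝ) + 1 + 2 ^ (k + 1)) * ((2 ^ k * lg N ^ (2 * (k + 1))) * (2 * B)) := by
            apply mul_le_mul_of_nonneg_left _ (by positivity)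
            exact mul_le_mul hlk hNL (by positivity) (by positivity)
        _ = _ := by ring
    -- powers
    have q1 : Real.sqrt N * (2 : ℝ) ^ ((L : ℝ) * (1 / 2 - 1 / ((k : ℝ) + 1))) *
        p ^ (-(1 / ((k : ℝ) + 1))) ≤ B := by
      have hx : 0 ≤ 1 / 2 - 1 / ((k : ℝ) + 1) := by
        have : 1 / ((k : ℝ) + 1) ≤ 1 / 2 := one_div_le_one_div_of_le (by norm_num) (by linarith)
        linarith
      have h1 : (2 : ℝ) ^ ((L : ℝ) * (1 / 2 - 1 / ((k : ℝ) + 1))) ≤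
          R ^ (1 / 2 - 1 / ((k : ℝ) + 1)) := by
        rw [Real.rpow_mul (by norm_num), Real.rpow_natCast]
        exact Real.rpow_le_rpow (by positivity) hL1 hx
      refine le_trans ?_ n5
      apply mul_le_mul_of_nonneg_right _ (by positivity)
      exact mul_le_mul_of_nonneg_left h1 (Real.sqrt_nonneg _)
    have q2 : Real.sqrt (YY k N) * (2 : ℝ) ^ ((L : ℝ) * (1 / 2 - 1 / (2 * ((k : ℝ) + 1)))) *
        p ^ (-(1 / (2 * ((k : ℝ) + 1)))) ≤ lg N ^ k * B := by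
      have hx : 0 ≤ 1 / 2 - 1 / (2 * ((k : ℝ) + 1)) := by
        have : 1 / (2 * ((k : ℝ) + 1)) ≤ 1 / 2 := one_div_le_one_div_of_le (by norm_num) (by linarith)
        linarith
      have h1 : (2 : ℝ) ^ ((L : ℝ) * (1 / 2 - 1 / (2 * ((k : ℝ) + 1)))) ≤
          R ^ (1 / 2 - 1 / (2 * ((k : ℝ) + 1))) := by
        rw [Real.rpow_mul (by norm_num), Real.rpow_natCast]
        exact Real.rpow_le_rpow (by positivity) hL1 hx
      have h2 : Real.sqrt (YY k N) ≤ lg N ^ k * (N : ℝ) ^ (1 / 3 : ℝ) := by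
        refine Real.sqrt_le_iff.mpr ⟨by positivity, ?_⟩
        have h3 : ((N : ℝ) ^ (1 / 3 : ℝ)) ^ 2 = (N : ℝ) ^ (2 / 3 : ℝ) := by
          rw [← Real.rpow_natCast, ← Real.rpow_mul hN0R.le]
          norm_num
        unfold YY
        rw [mul_pow, h3, mul_comm]
        apply mul_le_mul_of_nonneg_right _ (by positivity)
        exact le_self_pow₀ (one_le_pow₀ hlg) (by norm_num)
      calc Real.sqrt (YY k N) * (2 : ℝ) ^ ((L : ℝ) * (1 / 2 - 1 / (2 * ((k : ℝ) + 1)))) *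
          p ^ (-(1 / (2 * ((k : ℝ) + 1)))) ≤
          (lg N ^ k * (N : ℝ) ^ (1 / 3 : ℝ)) * R ^ (1 / 2 - 1 / (2 * ((k : ℝ) + 1))) *
            p ^ (-(1 / (2 * ((k : ℝ) + 1)))) := by
            apply mul_le_mul_of_nonneg_right _ (by positivity)
            exact mul_le_mul h2 h1 (by positivity) (by positivity)
        _ = lg N ^ k * ((N : ℝ) ^ (1 / 3 : ℝ) * R ^ (1 / 2 - 1 / (2 * ((k : ℝ) + 1))) *
            p ^ (-(1 / (2 * ((k : ℝ) + 1))))) := by ring
        _ ≤ lg N ^ k * B := mul_le_mul_of_nonneg_left n6 (by positivity)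
    have hsq : Real.sqrt (lg N) ≤ lg N := by
      refine Real.sqrt_le_iff.mpr ⟨by linarith, ?_⟩
      nlinarith
    have p2 : ∑ l ∈ (idx (k + 1) L).filter (fun l => ∑ r, l r ≤ L),
        C * Real.sqrt (ef k N (δ (s l)) (1 / 2 ^ l (s l))) * ∏ r, Real.sqrt 2 ^ l r ≤
        C * 2 ^ (k + 2) * (lg N ^ (2 * (k + 1)) * B) := by
      have e : ∑ l ∈ (idx (k + 1) L).filter (fun l => ∑ r, l r ≤ L),
          C * Real.sqrt (ef k N (δ (s l)) (1 / 2 ^ l (s l))) * ∏ r, Real.sqrt 2 ^ l r =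
          C * ∑ l ∈ (idx (k + 1) L).filter (fun l => ∑ r, l r ≤ L),
            Real.sqrt (ef k N (δ (s l)) (1 / 2 ^ l (s l))) * ∏ r, Real.sqrt 2 ^ l r := by
        rw [mul_sum]
        exact sum_congr rfl fun l _ => by ring
      rw [e, mul_assoc C]
      apply mul_le_mul_of_nonneg_left _ hC
      refine hcs.trans ?_
      have h1 : ((L : ℝ) + 1) ^ (k + 1) ≤ (2 * lg N) ^ (k + 1) :=
        pow_le_pow_left₀ (by positivity) hLN _
      have h2 : Real.sqrt N * (2 : ℝ) ^ ((L : ℝ) * (1 / 2 - 1 / ((k : ℝ) + 1))) *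
          p ^ (-(1 / ((k : ℝ) + 1))) +
          Real.sqrt (YY k N) * (2 : ℝ) ^ ((L : ℝ) * (1 / 2 - 1 / (2 * ((k : ℝ) + 1)))) *
          p ^ (-(1 / (2 * ((k : ℝ) + 1)))) ≤ 2 * (lg N ^ k * B) := by
        have h3 : B ≤ lg N ^ k * B := le_mul_of_one_le_left hB0.le (one_le_pow₀ hlg)
        linarith
      calc ((L : ℝ) + 1) ^ (k + 1) * Real.sqrt (lg N) *
          (Real.sqrt N * (2 : ℝ) ^ ((L : ℝ) * (1 / 2 - 1 / ((k : ℝ) + 1))) *
          p ^ (-(1 / ((k : ℝ) + 1))) +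
            Real.sqrt (YY k N) * (2 : ℝ) ^ ((L : ℝ) * (1 / 2 - 1 / (2 * ((k : ℝ) + 1)))) *
          p ^ (-(1 / (2 * ((k : ℝ) + 1))))) ≤
          ((2 * lg N) ^ (k + 1) * lg N) * (2 * (lg N ^ k * B)) := by
            apply mul_le_mul _ h2 (by positivity) (by positivity)
            exact mul_le_mul h1 hsq (Real.sqrt_nonneg _) (by positivity)
        _ = 2 ^ (k + 2) * (lg N ^ (2 * (k + 1)) * B) := by
            rw [mul_pow]
            ring
    have e4 : (((k : ℝ) + 1 + 2 ^ (k + 1)) * 2 ^ (k + 1) + C * 2 ^ (k + 2)) *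
        (lg N ^ (2 * (k + 1)) * B) =
        ((k : ℝ) + 1 + 2 ^ (k + 1)) * 2 ^ (k + 1) * (lg N ^ (2 * (k + 1)) * B) +
        C * 2 ^ (k + 2) * (lg N ^ (2 * (k + 1)) * B) := by ring
    rw [e4]
    exact add_le_add p1 p2
  · push Not at hR1
    have h1 := mu_ge z N a b
      (fun r => ⟨(hab r).1, (hab r).2.1, (hab r).2.2.trans (by linarith [hδ r])⟩)
    have h2 : (N : ℝ) ≤ B := by
      rw [← hBR]
      nlinarith
    have h3 : B ≤ lg N ^ (2 * (k + 1)) * B := le_mul_of_one_le_left hB0.le hP2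
    have h4 : (1 : ℝ) ≤ ((k : ℝ) + 1 + 2 ^ (k + 1)) * 2 ^ (k + 1) + C * 2 ^ (k + 2) := by
      have h5 : (1 : ℝ) ≤ 2 ^ (k + 1) := one_le_pow₀ (by norm_num)
      have h6 : (0 : ℝ) ≤ C * 2 ^ (k + 2) := by positivity
      nlinarith
    have h5 : lg N ^ (2 * (k + 1)) * B ≤
        (((k : ℝ) + 1 + 2 ^ (k + 1)) * 2 ^ (k + 1) + C * 2 ^ (k + 2)) *
          (lg N ^ (2 * (k + 1)) * B) := le_mul_of_one_le_left (by positivity) h4
    linarith

/-- all boxes with a corner at the origin -/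
theorem final2 (k m : ℕ) (hk : 1 ≤ k) :
    ∃ C : ℝ, ∀ z : ℕ → Fin (k + 1) → ℝ, IsKritzinger (k + 1) m z →
    ∀ N : ℕ, 2 ≤ N → ∀ q : Fin (k + 1) → ℝ, (∀ r, 0 ≤ q r ∧ q r < 1) →
      |(((range N).filter (fun i => ∀ r, z i r < q r)).card : ℝ) / N - ∏ r, q r| ≤
        C * Real.log N ^ (2 * (k + 1)) / ((N : ℝ) ^ (((k : ℝ) + 1) / (3 * k + 1)) *
          (∏ r, (1 - q r)) ^ (2 / (3 * (k : ℝ) + 1))) := by
  obtain ⟨C, hC, hlow⟩ := lowbd2 k m hk
  obtain ⟨C1, hC1, hmu⟩ := mu_bd k m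
  obtain ⟨A, hA⟩ : ∃ A : ℝ, A = 2 ^ (k + 1) * Real.sqrt (2 * m ^ 2 + 1) +
    ((k : ℝ) + 1) * (C * 2 ^ (k + 1)) + C1 := ⟨_, rfl⟩
  have hA0 : 0 ≤ A := by rw [hA]; positivity
  have hlog2' : (1 : ℝ) / 2 ≤ Real.log 2 := by linarith [Real.log_two_gt_d9]
  have hlog2 : (0 : ℝ) < Real.log 2 := by linarith
  refine ⟨m / Real.log 2 ^ (2 * (k + 1)) + A * 3 ^ (2 * (k + 1)), ?_⟩
  intro z h N hN q hq
  have hz : ∀ j r, 0 ≤ z j r ∧ z j r < 1 := fun j r => h.mem j r
  have hNR : (2 : ℝ) ≤ N := by exact_mod_cast hN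
  have hN1 : 1 ≤ N := by omega
  have hN1R : (1 : ℝ) ≤ N := by linarith
  have hN0R : (0 : ℝ) < N := by linarith
  have hkR : (1 : ℝ) ≤ k := by exact_mod_cast hk
  have hlg := lg_ge_one hN1
  have hlogN : Real.log 2 ≤ Real.log N := Real.log_le_log (by norm_num) hNR
  have hlogN0 : 0 < Real.log N := by linarith
  obtain ⟨p, hp⟩ : ∃ p : ℝ, p = ∏ r, (1 - q r) := ⟨_, rfl⟩
  have hp0 : 0 < p := by rw [hp]; exact prod_pos fun r _ => by linarith [(hq r).2]
  have hp1 : p ≤ 1 := by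
    rw [hp]
    exact prod_le_one (fun r _ => by linarith [(hq r).2]) fun r _ => by linarith [(hq r).1]
  rw [← hp]
  obtain ⟨R, hR⟩ : ∃ R : ℝ, R = (N : ℝ) ^ (((k : ℝ) + 1) / (3 * k + 1)) *
    p ^ (2 / (3 * (k : ℝ) + 1)) := ⟨_, rfl⟩
  obtain ⟨B, hB⟩ : ∃ B : ℝ, B = (N : ℝ) ^ (2 * (k : ℝ) / (3 * k + 1)) *
    p ^ (-(2 / (3 * (k : ℝ) + 1))) := ⟨_, rfl⟩
  obtain ⟨hR0, hB0, hBR, hRN, -, -, n7, n8⟩ := num2 k hk N p hNR hp0 hp1 R B hR hB
  rw [← hR]
  have hq0 : ∀ r, 0 ≤ q r := fun r => (hq r).1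
  have hq1 : ∀ r, q r ≤ 1 := fun r => (hq r).2.le
  have hpw : (1 : ℝ) ≤ lg N ^ (2 * (k + 1)) := one_le_pow₀ hlg
  have e : (((range N).filter (fun i => ∀ r, z i r < q r)).card : ℝ) / N
      - ∏ r, q r = mu z N 0 q / N := by
    have e1 : (range N).filter (fun i => ∀ r, z i r < q r) =
        (range N).filter (fun i => ∀ r, (0 : Fin (k + 1) → ℝ) r ≤ z i r ∧ z i r < q r) := by
      apply filter_congr
      intro i _
      exact ⟨fun h1 r => ⟨(hz i r).1, h1 r⟩, fun h1 r => (h1 r).2⟩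
    rw [e1]
    unfold mu
    simp only [Pi.zero_apply, sub_zero]
    field_simp
  by_cases hbig : m ≤ N
  · have hW : 0 ≤ lg N ^ (2 * (k + 1)) * B := by positivity
    have hmu2 : |mu z N 0 q| ≤ A * (lg N ^ (2 * (k + 1)) * B) := by
      have hAW : A * (lg N ^ (2 * (k + 1)) * B) =
          2 ^ (k + 1) * Real.sqrt (2 * m ^ 2 + 1) * (lg N ^ (2 * (k + 1)) * B) +
          ((k : ℝ) + 1) * (C * 2 ^ (k + 1) * (lg N ^ (2 * (k + 1)) * B)) +
          C1 * (lg N ^ (2 * (k + 1)) * B) := by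
        rw [hA]; ring
      have w1 : 0 ≤ 2 ^ (k + 1) * Real.sqrt (2 * m ^ 2 + 1) * (lg N ^ (2 * (k + 1)) * B) := by
        positivity
      have w2 : 0 ≤ C * 2 ^ (k + 1) * (lg N ^ (2 * (k + 1)) * B) := by positivity
      have w3 : 0 ≤ C1 * (lg N ^ (2 * (k + 1)) * B) := by positivity
      have w4 : 0 ≤ (k : ℝ) * (C * 2 ^ (k + 1) * (lg N ^ (2 * (k + 1)) * B)) := by positivity
      rcases le_total ((N : ℝ) ^ (-(1 / 3 : ℝ))) p with hc | hc
      · have hB2 : (N : ℝ) ^ (2 * (k : ℝ) / (3 * k + 1)) *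
            (∏ r, ((1 - q r) / 2)) ^ (-(2 / (3 * (k : ℝ) + 1))) ≤ 2 ^ (k + 1) * B := by
          have e2 : ∏ r, ((1 - q r) / 2) = p * (1 / 2) ^ (k + 1) := by
            rw [hp]
            rw [show (∏ r : Fin (k + 1), ((1 - q r) / 2)) = ∏ r : Fin (k + 1), ((1 - q r) * (1 / 2)) from
              prod_congr rfl fun r _ => by ring]
            rw [prod_mul_distrib, prod_const, card_univ, Fintype.card_fin]
          rw [e2, Real.mul_rpow hp0.le (by positivity), hB]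
          have e3 : ((1 / 2 : ℝ) ^ (k + 1)) ^ (-(2 / (3 * (k : ℝ) + 1))) ≤ 2 ^ (k + 1) := by
            have e4 : ((1 / 2 : ℝ) ^ (k + 1)) = ((2 : ℝ) ^ (k + 1))⁻¹ := by
              rw [one_div, inv_pow]
            rw [e4, Real.inv_rpow (by positivity), ← Real.rpow_neg (by positivity), neg_neg]
            calc ((2 : ℝ) ^ (k + 1)) ^ (2 / (3 * (k : ℝ) + 1)) ≤ ((2 : ℝ) ^ (k + 1)) ^ (1 : ℝ) := by
                  apply Real.rpow_le_rpow_of_exponent_le (one_le_pow₀ (by norm_num))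
                  rw [div_le_one (by positivity)]
                  linarith
              _ = 2 ^ (k + 1) := Real.rpow_one _
          have e5 : 0 ≤ (N : ℝ) ^ (2 * (k : ℝ) / (3 * k + 1)) * p ^ (-(2 / (3 * (k : ℝ) + 1))) := by
            positivity
          nlinarith
        have ht := top2 z hz N q (fun r => (1 + q r) / 2) hq0
          (fun r => by linarith [(hq r).2]) (fun r => by linarith [(hq r).2])
          (C * 2 ^ (k + 1) * (lg N ^ (2 * (k + 1)) * B)) w2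
          (fun a b hab => by
            have h1 := hlow z h N hbig hN a b (fun r => (1 - q r) / 2)
              (fun r => by linarith [(hq r).2])
              (fun r => ⟨(hab r).1, (hab r).2.1, by linarith [(hab r).2.2]⟩)
            refine le_trans ?_ h1
            rw [neg_le_neg_iff]
            calc C * (lg N ^ (2 * (k + 1)) * ((N : ℝ) ^ (2 * (k : ℝ) / (3 * k + 1)) *
                  (∏ r, ((1 - q r) / 2)) ^ (-(2 / (3 * (k : ℝ) + 1))))) ≤
                C * (lg N ^ (2 * (k + 1)) * (2 ^ (k + 1) * B)) := by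
                  apply mul_le_mul_of_nonneg_left _ hC
                  exact mul_le_mul_of_nonneg_left hB2 (by positivity)
              _ = _ := by ring)
          q (fun r => ⟨hq0 r, le_rfl⟩)
        obtain ⟨t1, t2⟩ := ht
        have e6 : ∏ r, ((1 + q r) / 2 - q r) = p * (1 / 2) ^ (k + 1) := by
          rw [hp]
          rw [show (∏ r : Fin (k + 1), ((1 + q r) / 2 - q r)) =
            ∏ r : Fin (k + 1), ((1 - q r) * (1 / 2)) from prod_congr rfl fun r _ => by ring]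
          rw [prod_mul_distrib, prod_const, card_univ, Fintype.card_fin]
        have hen : Real.sqrt (en z N / ∏ r, ((1 + q r) / 2 - q r)) ≤
            2 ^ (k + 1) * Real.sqrt (2 * m ^ 2 + 1) * (lg N ^ (2 * (k + 1)) * B) := by
          rw [e6]
          have h5 := en_le h N hbig
          have h6 : (2 * (m : ℝ) ^ 2 + N) ≤ (2 * m ^ 2 + 1) * N := by
            have : 0 ≤ (m : ℝ) ^ 2 := by positivity
            nlinarith
          have h7 := n7 hc
          have h8 : B ≤ lg N ^ (2 * (k + 1)) * B := le_mul_of_one_le_left hB0.le hpw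
          have h9 : en z N / (p * (1 / 2) ^ (k + 1)) ≤
              (2 ^ (k + 1)) ^ 2 * ((2 * m ^ 2 + 1) * (N / p)) := by
            have h10 : en z N / (p * (1 / 2) ^ (k + 1)) = 2 ^ (k + 1) * (en z N / p) := by
              rw [one_div_pow]
              field_simp
            rw [h10]
            have h11 : en z N / p ≤ (2 * m ^ 2 + 1) * (N / p) := by
              rw [← mul_div_assoc]
              exact div_le_div_of_nonneg_right (h5.trans h6) hp0.le
            have h12 : (1 : ℝ) ≤ 2 ^ (k + 1) := one_le_pow₀ (by norm_num)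
            have h13 : 0 ≤ (2 * (m : ℝ) ^ 2 + 1) * (N / p) := by positivity
            have h14 : (2 : ℝ) ^ (k + 1) * (en z N / p) ≤
                2 ^ (k + 1) * ((2 * m ^ 2 + 1) * (N / p)) :=
              mul_le_mul_of_nonneg_left h11 (by positivity)
            have h15 : (2 : ℝ) ^ (k + 1) ≤ (2 ^ (k + 1)) ^ 2 := le_self_pow₀ h12 (by norm_num)
            exact h14.trans (mul_le_mul_of_nonneg_right h15 h13)
          calc Real.sqrt (en z N / (p * (1 / 2) ^ (k + 1))) ≤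
              Real.sqrt ((2 ^ (k + 1)) ^ 2 * ((2 * m ^ 2 + 1) * (N / p))) :=
                Real.sqrt_le_sqrt h9
            _ = 2 ^ (k + 1) * (Real.sqrt (2 * m ^ 2 + 1) * Real.sqrt (N / p)) := by
                rw [Real.sqrt_mul (by positivity), Real.sqrt_sq (by positivity),
                  Real.sqrt_mul (by positivity)]
            _ ≤ 2 ^ (k + 1) * (Real.sqrt (2 * m ^ 2 + 1) * (lg N ^ (2 * (k + 1)) * B)) := by
                apply mul_le_mul_of_nonneg_left _ (by positivity)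
                exact mul_le_mul_of_nonneg_left (h7.trans h8) (Real.sqrt_nonneg _)
            _ = _ := by ring
        push_cast at t2
        rw [hAW, abs_le]
        constructor
        · linarith
        · linarith
      · have h1 := hmu z h N hbig hN1 q fun r => ⟨hq0 r, hq1 r⟩
        have h2 := n8 hc
        have h3 : YY k N ≤ lg N ^ (2 * (k + 1)) * B := by
          unfold YY
          rw [mul_comm]
          exact mul_le_mul (pow_le_pow_right₀ hlg (by omega)) h2 (by positivity) (by positivity)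
        have h4 : C1 * YY k N ≤ C1 * (lg N ^ (2 * (k + 1)) * B) :=
          mul_le_mul_of_nonneg_left h3 hC1
        rw [hAW]
        linarith
    rw [e, abs_div, abs_of_pos hN0R, div_le_div_iff₀ hN0R hR0]
    have h13 : lg N ≤ 3 * Real.log N := by
      unfold lg
      linarith
    have h14 : lg N ^ (2 * (k + 1)) ≤ 3 ^ (2 * (k + 1)) * Real.log N ^ (2 * (k + 1)) := by
      rw [← mul_pow]
      exact pow_le_pow_left₀ (by linarith) h13 _
    calc |mu z N 0 q| * R ≤ A * (lg N ^ (2 * (k + 1)) * B) * R :=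
          mul_le_mul_of_nonneg_right hmu2 hR0.le
      _ = A * lg N ^ (2 * (k + 1)) * (B * R) := by ring
      _ = A * lg N ^ (2 * (k + 1)) * N := by rw [hBR]
      _ ≤ A * (3 ^ (2 * (k + 1)) * Real.log N ^ (2 * (k + 1))) * N := by
          apply mul_le_mul_of_nonneg_right _ hN0R.le
          exact mul_le_mul_of_nonneg_left h14 hA0
      _ ≤ _ := by
          have h16 : 0 ≤ (m : ℝ) / Real.log 2 ^ (2 * (k + 1)) * Real.log N ^ (2 * (k + 1)) * N := by
            positivity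
          nlinarith
  · push Not at hbig
    have hle : |(((range N).filter (fun i => ∀ r, z i r < q r)).card : ℝ) / N - ∏ r, q r| ≤ 1 := by
      have h1 : (((range N).filter (fun i => ∀ r, z i r < q r)).card : ℝ) / N ≤ 1 := by
        rw [div_le_one hN0R]
        have := Finset.card_filter_le (range N) (fun i => ∀ r, z i r < q r)
        rw [Finset.card_range] at this
        exact_mod_cast this
      have h2 : 0 ≤ (((range N).filter (fun i => ∀ r, z i r < q r)).card : ℝ) / N := by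
        positivity
      have h3 : 0 ≤ ∏ r, q r := Finset.prod_nonneg (fun r _ => hq0 r)
      have h4 : ∏ r, q r ≤ 1 := Finset.prod_le_one (fun r _ => hq0 r) (fun r _ => hq1 r)
      rw [abs_le]
      constructor <;> linarith
    refine hle.trans ?_
    rw [le_div_iff₀ hR0, one_mul]
    have h1 : R ≤ m := hRN.trans (by exact_mod_cast hbig.le)
    have h4 : (m : ℝ) ≤ m / Real.log 2 ^ (2 * (k + 1)) * Real.log N ^ (2 * (k + 1)) := by
      have h5 : Real.log 2 ^ (2 * (k + 1)) ≤ Real.log N ^ (2 * (k + 1)) :=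
        pow_le_pow_left₀ hlog2.le hlogN _
      have h6 : (0 : ℝ) < Real.log 2 ^ (2 * (k + 1)) := by positivity
      rw [div_mul_eq_mul_div, le_div_iff₀ h6]
      exact mul_le_mul_of_nonneg_left h5 (Nat.cast_nonneg m)
    have h7 : 0 ≤ A * 3 ^ (2 * (k + 1)) * Real.log N ^ (2 * (k + 1)) := by positivity
    rw [add_mul]
    linarith

end Pool.Agent.H36.KJ
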